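import Pool.Agent.R181.Maj

/-!
# Congruences of an algebra with Gumm operations: shifting lemma, modular law, blocks of type M3
-/

set_option autoImplicit false

namespace Pool.Agent.Run7.h551.GP

open Pool.Agent.R181.Maj

variable {A : Type*}

/-- Gumm operations (abstract form used in the proofs). -/
structure G (n : ℕ) (q : ℕ → A → A → A → A) (p : A → A → A → A) : Prop where
  zero : ∀ x y z, q 0 x y z = x
  mid : ∀ i x y, q i x y x = x
  link : ∀ i, i < n → (∀ x z, q i x z z = q (i + 1) x z z) ∨ (∀ x z, q i x x z = q (i + 1) x x z)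
  last : ∀ x z, q n x z z = p x z z
  right : ∀ x z, p x x z = z

/-- compatibility of a relation with an operation -/
def RC (m : A → A → A → A) (R : A → A → Prop) : Prop :=
  ∀ a a' b b' c c', R a a' → R b b' → R c c' → R (m a b c) (m a' b' c')

/-- compatibility of an equivalence relation with all the operations -/
structure Cp (q : ℕ → A → A → A → A) (p : A → A → A → A) (s : Setoid A) : Prop where
  q : ∀ i, Compat (q i) s
  p : Compat p s

variable {n : ℕ} {q : ℕ → A → A → A → A} {p : A → A → A → A}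

theorem Cp.inf {s t : Setoid A} (hs : Cp q p s) (ht : Cp q p t) : Cp q p (s ⊓ t) :=
  ⟨fun i => compat_inf (hs.q i) (ht.q i), compat_inf hs.p ht.p⟩

theorem Cp.sup {s t : Setoid A} (hs : Cp q p s) (ht : Cp q p t) : Cp q p (s ⊔ t) :=
  ⟨fun i => compat_sup (hs.q i) (ht.q i), compat_sup hs.p ht.p⟩

/-- The shifting lemma, with a compatible reflexive relation in one direction. -/
theorem shift (h : G n q p) (R : A → A → Prop) (hR : ∀ x, R x x) (hRq : ∀ i, RC (q i) R)
    (hRp : RC p R) {β γ : Setoid A} (hβ : Cp q p β) (hγ : Cp q p γ)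
    (hle : ∀ a b, R a b → β a b → γ a b) {x y z u : A} (hxz : R x z) (hyu : R y u)
    (hxy : β x y) (hzu : β z u) (hzu' : γ z u) : γ x y := by
  have hmid : ∀ i w, β (q i x w y) x := by
    intro i w
    have h1 := hβ.q i x x w w y x (β.refl _) (β.refl _) (β.symm hxy)
    rwa [h.mid] at h1
  have step : ∀ i, γ (q i x x y) (q i x y y) := by
    intro i
    have e1 : γ (q i x x y) (q i x z y) := hle _ _ (hRq i _ _ _ _ _ _ (hR x) hxz (hR y))
      (β.trans (hmid i x) (β.symm (hmid i z)))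
    have e2 : γ (q i x z y) (q i x u y) := hγ.q i _ _ _ _ _ _ (γ.refl _) hzu' (γ.refl _)
    have e3 : γ (q i x y y) (q i x u y) := hle _ _ (hRq i _ _ _ _ _ _ (hR x) hyu (hR y))
      (β.trans (hmid i y) (β.symm (hmid i u)))
    exact γ.trans e1 (γ.trans e2 (γ.symm e3))
  have chain : ∀ i, i ≤ n → γ x (q i x x y) ∧ γ x (q i x y y) := by
    intro i
    induction i with
    | zero =>
      intro _
      rw [h.zero, h.zero]
      exact ⟨γ.refl _, γ.refl _⟩
    | succ i ih =>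
      intro hi
      obtain ⟨h1, h2⟩ := ih (by omega)
      rcases h.link i (by omega) with hl | hl
      · rw [hl] at h2
        exact ⟨γ.trans h2 (γ.symm (step _)), h2⟩
      · rw [hl] at h1
        exact ⟨h1, γ.trans h1 (step _)⟩
  have e4 : γ x (p x y y) := by
    have := (chain n le_rfl).2
    rwa [h.last] at this
  have f1 : β (p x y y) y := by
    have h1 := hβ.p x x y x y y (β.refl _) (β.symm hxy) (β.refl _)
    rwa [h.right] at h1
  have f2 : β (p z u y) y := by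
    have h1 := hβ.p z z u z y y (β.refl _) (β.symm hzu) (β.refl _)
    rwa [h.right] at h1
  have e5 : γ (p x y y) (p z u y) := hle _ _ (hRp _ _ _ _ _ _ hxz hyu (hR y))
    (β.trans f1 (β.symm f2))
  have e6 : γ (p z u y) y := by
    have h1 := hγ.p z z u z y y (γ.refl _) (γ.symm hzu') (γ.refl _)
    rwa [h.right] at h1
  exact γ.trans e4 (γ.trans e5 e6)

/-- `β ∘ γ ∘ β ∘ ... ∘ β` -/
def Rk (β γ : Setoid A) : ℕ → A → A → Prop
  | 0 => fun a b => β a b
  | k + 1 => fun a b => ∃ c d, Rk β γ k a c ∧ γ c d ∧ Rk β γ k d b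

theorem rk_refl (β γ : Setoid A) (k : ℕ) : ∀ a, Rk β γ k a a := by
  induction k with
  | zero => exact fun a => β.refl a
  | succ k ih => exact fun a => ⟨a, a, ih a, γ.refl a, ih a⟩

theorem rk_symm (β γ : Setoid A) (k : ℕ) : ∀ a b, Rk β γ k a b → Rk β γ k b a := by
  induction k with
  | zero => exact fun a b h => β.symm h
  | succ k ih =>
    rintro a b ⟨c, d, h1, h2, h3⟩
    exact ⟨d, c, ih _ _ h3, γ.symm h2, ih _ _ h1⟩

theorem rk_rc {m : A → A → A → A} {β γ : Setoid A} (hβ : Compat m β) (hγ : Compat m γ) (k : ℕ) :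
    RC m (Rk β γ k) := by
  induction k with
  | zero => exact hβ
  | succ k ih =>
    rintro a a' b b' c c' ⟨u1, v1, h1, h1', h1''⟩ ⟨u2, v2, h2, h2', h2''⟩ ⟨u3, v3, h3, h3', h3''⟩
    exact ⟨m u1 u2 u3, m v1 v2 v3, ih _ _ _ _ _ _ h1 h2 h3, hγ _ _ _ _ _ _ h1' h2' h3',
      ih _ _ _ _ _ _ h1'' h2'' h3''⟩

theorem rk_mono (β γ : Setoid A) {k l : ℕ} (hkl : k ≤ l) : ∀ a b, Rk β γ k a b → Rk β γ l a b := by
  induction l, hkl using Nat.le_induction with
  | base => exact fun a b h => h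
  | succ l _ ih => exact fun a b h => ⟨b, b, ih _ _ h, γ.refl _, rk_refl β γ l b⟩

theorem sup_rk {β γ : Setoid A} {a b : A} (h : (β ⊔ γ) a b) : ∃ k, Rk β γ k a b := by
  rw [Setoid.sup_eq_eqvGen] at h
  have h' : Relation.EqvGen (fun x y => β x y ∨ γ x y) a b := h
  clear h
  induction h' with
  | rel a b hab =>
    rcases hab with hab | hab
    · exact ⟨0, hab⟩
    · exact ⟨1, a, b, β.refl _, hab, β.refl _⟩
  | refl a => exact ⟨0, β.refl _⟩
  | symm a b _ ih =>
    obtain ⟨k, hk⟩ := ih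
    exact ⟨k, rk_symm β γ k _ _ hk⟩
  | trans a b c _ _ ih1 ih2 =>
    obtain ⟨k, hk⟩ := ih1
    obtain ⟨l, hl⟩ := ih2
    exact ⟨max k l + 1, b, b, rk_mono β γ (le_max_left _ _) _ _ hk, γ.refl _,
      rk_mono β γ (le_max_right _ _) _ _ hl⟩

/-- The modular law. -/
theorem modular (h : G n q p) {α β γ : Setoid A} (hα : Cp q p α) (hβ : Cp q p β) (hγ : Cp q p γ)
    (hγα : γ ≤ α) : α ⊓ (β ⊔ γ) ≤ (α ⊓ β) ⊔ γ := by
  have hδ : Cp q p ((α ⊓ β) ⊔ γ) := (hα.inf hβ).sup hγ
  have key : ∀ k a b, Rk β γ k a b → α a b → ((α ⊓ β) ⊔ γ) a b := by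
    intro k
    induction k with
    | zero =>
      intro a b h1 h2
      exact (le_sup_left : α ⊓ β ≤ (α ⊓ β) ⊔ γ) ⟨h2, h1⟩
    | succ k ih =>
      rintro a b ⟨c, d, h1, h2, h3⟩ hab
      exact shift h (Rk β γ k) (rk_refl β γ k) (fun i => rk_rc (hβ.q i) (hγ.q i) k)
        (rk_rc hβ.p hγ.p k) hα hδ ih h1 (rk_symm β γ k _ _ h3) hab (hγα h2)
        ((le_sup_right : γ ≤ (α ⊓ β) ⊔ γ) h2)
  intro a b hab
  obtain ⟨k, hk⟩ := sup_rk hab.2
  exact key k a b hk hab.1

/-- The congruences. -/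
def Cg {n : ℕ} {q : ℕ → A → A → A → A} {p : A → A → A → A} (_ : G n q p) : Type _ :=
  {s : Setoid A // Cp q p s}

variable {hG : G n q p}

noncomputable instance instLatCg : Lattice (Cg hG) :=
  Subtype.lattice (fun _ _ h h' => h.sup h') (fun _ _ h h' => h.inf h')

instance : IsModularLattice (Cg hG) where
  sup_inf_le_assoc_of_le {x} y {z} hxz := by
    have h1 := modular hG z.2 y.2 x.2 hxz
    show (x.1 ⊔ y.1) ⊓ z.1 ≤ x.1 ⊔ y.1 ⊓ z.1
    rw [inf_comm, sup_comm x.1 y.1, sup_comm x.1, inf_comm y.1]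
    exact h1

/-- the middle part of the free modular lattice with three generators -/
theorem join_eq {L : Type*} [Lattice L] [IsModularLattice L] (a b c : L) :
    (a ⊓ (b ⊔ c)) ⊔ (b ⊓ (a ⊔ c)) = (a ⊔ b) ⊓ (b ⊔ c) ⊓ (a ⊔ c) := by
  have h1 : a ⊓ (b ⊔ c) ≤ a ⊔ c := inf_le_left.trans le_sup_left
  rw [← sup_inf_assoc_of_le b h1]
  have h2 : a ⊓ (b ⊔ c) ⊔ b = (a ⊔ b) ⊓ (b ⊔ c) := by
    rw [sup_comm, ← sup_inf_assoc_of_le a (le_sup_left : b ≤ b ⊔ c), sup_comm b a]
  rw [h2]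

end Pool.Agent.Run7.h551.GP
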