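import Pool.Agent.Run7.h551.GP.Three
import Pool.Agent.R181.MajPieces

/-!
# Hypergraphs which are unions of relations closed under Gumm operations
-/

set_option autoImplicit false

namespace Pool.Agent.Run7.h551.GP

open Finset Pool.Agent.R181.Maj Pool.Agent.R181.LW

/-- The operations `q 0, ..., q n` and `p` satisfy the identities of Gumm. -/
def IsGumm {A : Type} (n : ℕ) (q : ℕ → A → A → A → A) (p : A → A → A → A) : Prop :=
  (∀ x y z, q 0 x y z = x) ∧
  (∀ i, i ≤ n → ∀ x y, q i x y x = x) ∧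
  (∀ i, i < n → (Even i → ∀ x z, q i x z z = q (i + 1) x z z) ∧
    (Odd i → ∀ x z, q i x x z = q (i + 1) x x z)) ∧
  (∀ x z, q n x z z = p x z z) ∧
  (∀ x z, p x x z = z)

/-- `F` is a relation between `r` pairwise disjoint sets of vertices, closed under componentwise
application of some Gumm operations `q j 0, ..., q j n`, `p j` on these sets. -/
def GummPiece {V : Type} (r : ℕ) (F : Set (Finset V)) : Prop :=
  ∃ (n : ℕ) (X : Fin r → Type) (q : ∀ j, ℕ → X j → X j → X j → X j)
    (p : ∀ j, X j → X j → X j → X j) (f : (Σ j, X j) → V) (E : Set (∀ j, X j)),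
    (∀ j, IsGumm n (q j) (p j)) ∧ Function.Injective f ∧
    (∀ i, i ≤ n → ∀ x ∈ E, ∀ y ∈ E, ∀ z ∈ E, (fun j => q j i (x j) (y j) (z j)) ∈ E) ∧
    (∀ x ∈ E, ∀ y ∈ E, ∀ z ∈ E, (fun j => p j (x j) (y j) (z j)) ∈ E) ∧ F = edge f '' E

/-- three coordinates which are not larger than the average -/
theorem three_coords (k : ℕ) (g : Fin (k + 3) → ℕ) :
    ∃ c : Fin 3 → Fin (k + 3), Function.Injective c ∧ (k + 3) * ∑ i, g (c i) ≤ 3 * ∑ j, g j := by
  have hle : 3 ≤ k + 3 := by omega
  have h1 : ∑ j : Fin (k + 3), (k + 3) * ∑ i : Fin 3, g (j + Fin.castLE hle i) ≤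
      ∑ _j : Fin (k + 3), 3 * ∑ j', g j' := by
    rw [← mul_sum, sum_comm]
    have h2 : ∀ i : Fin 3, ∑ j : Fin (k + 3), g (j + Fin.castLE hle i) = ∑ j, g j := by
      intro i
      exact Equiv.sum_comp (Equiv.addRight (Fin.castLE hle i)) g
    rw [sum_congr rfl fun i _ => h2 i]
    simp
  obtain ⟨j, -, hj⟩ := exists_le_of_sum_le univ_nonempty h1
  refine ⟨fun i => j + Fin.castLE hle i, ?_, hj⟩
  intro i i' hi
  exact Fin.castLE_injective hle (add_left_cancel hi)

theorem sum_three {k s : ℕ} (g : Fin (k + 3) → ℕ) (hg : ∀ j, g j ≤ s) (c : Fin 3 → Fin (k + 3))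
    (hc : Function.Injective c) : ∑ j, g j ≤ ∑ i, g (c i) + k * s := by
  classical
  have h1 : ∑ j ∈ univ.image c, g j = ∑ i, g (c i) := sum_image fun x _ y _ h => hc h
  have h2 : #(univ \ univ.image c) = k := by
    rw [card_sdiff_of_subset (subset_univ _), card_image_of_injective _ hc, card_univ, card_univ,
      Fintype.card_fin, Fintype.card_fin]
    omega
  have h3 : ∑ j ∈ univ \ univ.image c, g j ≤ #(univ \ univ.image c) * s := by
    rw [← smul_eq_mul]
    exact sum_le_card_nsmul _ _ _ fun j _ => hg j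
  rw [h2] at h3
  rw [← sum_sdiff (subset_univ (univ.image c)), h1]
  omega

theorem piece_bound {V : Type} [Fintype V] {r s : ℕ} (hr : 3 ≤ r) (hs : 3 ≤ s)
    {H : Set (Finset V)} (hH : SpanMore H s ((r - 2) * s + 3)) {F : Set (Finset V)}
    (hF : GummPiece r F) (hFH : F ⊆ H) :
    4 * r ^ 3 * F.ncard ^ 2 ≤ (s - 1) ^ 4 * Fintype.card V ^ 3 := by
  classical
  obtain ⟨k, rfl⟩ : ∃ k, r = k + 3 := ⟨r - 3, by omega⟩
  obtain ⟨n, X, q, p, f, E, hG, hf, hEq, hEp, rfl⟩ := hF
  have hfi : ∀ i, Function.Injective fun a : X i => f ⟨i, a⟩ := fun i a b hab =>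
    eq_of_heq (Sigma.mk.inj (hf hab)).2
  have : ∀ i, Finite (X i) := fun i => Finite.of_injective _ (hfi i)
  let _ : ∀ i, Fintype (X i) := fun i => Fintype.ofFinite (X i)
  obtain ⟨c, hc, hcs⟩ := three_coords k fun j => Fintype.card (X j)
  let q' : ℕ → E → E → E → E := fun i x y z =>
    if h : i ≤ n then ⟨fun j => q j i (x.1 j) (y.1 j) (z.1 j), hEq i h _ x.2 _ y.2 _ z.2⟩ else x
  let p' : E → E → E → E := fun x y z =>
    ⟨fun j => p j (x.1 j) (y.1 j) (z.1 j), hEp _ x.2 _ y.2 _ z.2⟩
  have hq' : ∀ i, i ≤ n → ∀ x y z j, (q' i x y z).1 j = q j i (x.1 j) (y.1 j) (z.1 j) := by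
    intro i hi x y z j
    simp only [q', dif_pos hi]
  have hq'' : ∀ i, ¬ i ≤ n → ∀ x y z, q' i x y z = x := by
    intro i hi x y z
    simp only [q', dif_neg hi]
  have hG' : G n q' p' := by
    refine ⟨?_, ?_, ?_, ?_, ?_⟩
    · intro x y z
      refine Subtype.ext (funext fun j => ?_)
      rw [hq' 0 (Nat.zero_le _)]
      exact (hG j).1 _ _ _
    · intro i x y
      by_cases hi : i ≤ n
      · refine Subtype.ext (funext fun j => ?_)
        rw [hq' i hi]
        exact (hG j).2.1 i hi _ _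
      · exact hq'' i hi _ _ _
    · intro i hi
      rcases Nat.even_or_odd i with h | h
      · left
        intro x z
        refine Subtype.ext (funext fun j => ?_)
        rw [hq' i (by omega), hq' (i + 1) (by omega)]
        exact ((hG j).2.2.1 i hi).1 h _ _
      · right
        intro x z
        refine Subtype.ext (funext fun j => ?_)
        rw [hq' i (by omega), hq' (i + 1) (by omega)]
        exact ((hG j).2.2.1 i hi).2 h _ _
    · intro x z
      refine Subtype.ext (funext fun j => ?_)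
      rw [hq' n le_rfl]
      exact (hG j).2.2.2.1 _ _
    · intro x z
      exact Subtype.ext (funext fun j => (hG j).2.2.2.2 _ _)
  let g : ∀ i : Fin 3, E → X (c i) := fun i a => a.1 (c i)
  have hker : ∀ i, Cp q' p' (Setoid.ker (g i)) := by
    intro i
    constructor
    · intro l a a' b b' d d' h1 h2 h3
      have e1 : a.1 (c i) = a'.1 (c i) := h1
      have e2 : b.1 (c i) = b'.1 (c i) := h2
      have e3 : d.1 (c i) = d'.1 (c i) := h3
      rw [Setoid.ker_def]
      show (q' l a b d).1 (c i) = (q' l a' b' d').1 (c i)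
      by_cases hl : l ≤ n
      · rw [hq' l hl, hq' l hl, e1, e2, e3]
      · rw [hq'' l hl, hq'' l hl]
        exact e1
    · intro a a' b b' d d' h1 h2 h3
      have e1 : a.1 (c i) = a'.1 (c i) := h1
      have e2 : b.1 (c i) = b'.1 (c i) := h2
      have e3 : d.1 (c i) = d'.1 (c i) := h3
      rw [Setoid.ker_def]
      show p (c i) (a.1 (c i)) (b.1 (c i)) (d.1 (c i)) =
        p (c i) (a'.1 (c i)) (b'.1 (c i)) (d'.1 (c i))
      rw [e1, e2, e3]
  have hsp : ∀ T : Finset E, #T = s → s + 3 < ∑ i, #(T.image (g i)) := by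
    intro T hTs
    have h1 := hH ((T.map (Function.Embedding.subtype _)).image (edge f)) (by
      rw [coe_image]
      intro a ha
      obtain ⟨x, hx, rfl⟩ := ha
      obtain ⟨y, -, rfl⟩ := mem_map.1 (mem_coe.1 hx)
      exact hFH ⟨y.1, y.2, rfl⟩)
      (by rw [card_image_of_injective _ (edge_injective hf), card_map, hTs])
    rw [union_eq hf] at h1
    have h2 := sum_three (s := s)
      (fun j => #((T.map (Function.Embedding.subtype _)).image fun x => x j)) (by
        intro j
        exact card_image_le.trans (by rw [card_map, hTs])) c hc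
    have h3 : ∀ i, (T.map (Function.Embedding.subtype _)).image (fun x : ∀ j, X j => x (c i)) =
        T.image (g i) := by
      intro i
      rw [map_eq_image, image_image]
      rfl
    simp only [h3] at h2
    have h4 : (k + 3 - 2) * s = k * s + s := by
      have : k + 3 - 2 = k + 1 := by omega
      rw [this]
      ring
    rw [h4] at h1
    omega
  let _ : Fintype E := Fintype.ofFinite E
  have h := bound3 hG' hker s hs hsp
  have h1 : (edge f '' E).ncard = Fintype.card E := by
    rw [Set.ncard_image_of_injective _ (edge_injective hf), ← Nat.card_coe_set_eq,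
      Nat.card_eq_fintype_card]
  rw [h1]
  have h3 : ∏ i, #((univ : Finset E).image (g i)) ≤ ∏ i, Fintype.card (X (c i)) :=
    prod_le_prod' fun i _ => card_le_univ _
  have h4 := amgm (univ : Finset (Fin 3)) univ_nonempty fun i => Fintype.card (X (c i))
  rw [card_univ, Fintype.card_fin] at h4
  have h5 : ∑ i, Fintype.card (X i) ≤ Fintype.card V := by
    rw [← Fintype.card_sigma]
    exact Fintype.card_le_of_injective f hf
  have h6 : (k + 3) ^ 3 * ∏ i, Fintype.card (X (c i)) ≤ Fintype.card V ^ 3 := by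
    have h7 : (k + 3) * ∑ i, Fintype.card (X (c i)) ≤ 3 * Fintype.card V :=
      hcs.trans (Nat.mul_le_mul_left _ h5)
    have h8 : 27 * ((k + 3) ^ 3 * ∏ i, Fintype.card (X (c i))) ≤ 27 * Fintype.card V ^ 3 := by
      calc 27 * ((k + 3) ^ 3 * ∏ i, Fintype.card (X (c i)))
          = (k + 3) ^ 3 * (3 ^ 3 * ∏ i, Fintype.card (X (c i))) := by ring
        _ ≤ (k + 3) ^ 3 * (∑ i, Fintype.card (X (c i))) ^ 3 := Nat.mul_le_mul_left _ h4
        _ = ((k + 3) * ∑ i, Fintype.card (X (c i))) ^ 3 := by ring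
        _ ≤ (3 * Fintype.card V) ^ 3 := Nat.pow_le_pow_left h7 3
        _ = 27 * Fintype.card V ^ 3 := by ring
    omega
  calc 4 * (k + 3) ^ 3 * Fintype.card E ^ 2 = (k + 3) ^ 3 * (4 * Fintype.card E ^ 2) := by ring
    _ ≤ (k + 3) ^ 3 * ((s - 1) ^ 4 * ∏ i, Fintype.card (X (c i))) :=
        Nat.mul_le_mul_left _ (h.trans (Nat.mul_le_mul_left _ h3))
    _ = (s - 1) ^ 4 * ((k + 3) ^ 3 * ∏ i, Fintype.card (X (c i))) := by ring
    _ ≤ _ := Nat.mul_le_mul_left _ h6

/-- Relations closed under Malcev operations are Gumm pieces. -/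
theorem malcev_piece {V : Type} {r : ℕ} {X : Fin r → Type} (m : ∀ j, X j → X j → X j → X j)
    (hm : ∀ j x z, m j x z z = x ∧ m j x x z = z) (f : (Σ j, X j) → V)
    (hf : Function.Injective f) (E : Set (∀ j, X j))
    (hE : ∀ x ∈ E, ∀ y ∈ E, ∀ z ∈ E, (fun j => m j (x j) (y j) (z j)) ∈ E) :
    GummPiece r (edge f '' E) := by
  refine ⟨0, X, fun j _ x _ _ => x, m, f, E, ?_, hf, ?_, hE, rfl⟩
  · intro j
    refine ⟨fun _ _ _ => rfl, fun _ _ _ _ => rfl, fun i hi => absurd hi (Nat.not_lt_zero i),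
      fun x z => ((hm j x z).1).symm, fun x z => (hm j x z).2⟩
  · intro i _ x hx y _ z _
    exact hx

/-- Relations closed under majority operations are Gumm pieces. -/
theorem majority_piece {V : Type} {r : ℕ} {F : Set (Finset V)} (hF : MajorityPiece r F) :
    GummPiece r F := by
  obtain ⟨X, μ, f, E, hμ, hf, hE, rfl⟩ := hF
  refine ⟨2, X, fun j i x y z => if i = 2 then μ j x y z else x, fun _ _ _ z => z, f, E, ?_, hf,
    ?_, ?_, rfl⟩
  · intro j
    refine ⟨fun _ _ _ => by simp, ?_, ?_, ?_, fun _ _ => rfl⟩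
    · intro i _ x y
      by_cases h : i = 2
      · simp only [h, if_true]
        exact (hμ j x y).2.1
      · simp only [h, if_false]
    · intro i hi
      constructor
      · intro he x z
        have h0 : i = 0 := by
          obtain ⟨t, ht⟩ := he
          omega
        subst h0
        simp
      · intro ho x z
        have h1 : i = 1 := by
          obtain ⟨t, ht⟩ := ho
          omega
        subst h1
        simp only [show (1 : ℕ) ≠ 2 by decide, if_false, show (1 : ℕ) + 1 = 2 by rfl, if_true]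
        exact ((hμ j x z).1).symm
    · intro x z
      simp only [if_true]
      exact (hμ j z x).2.2
  · intro i _ x hx y hy z hz
    by_cases h : i = 2
    · simp only [h, if_true]
      exact hE x hx y hy z hz
    · simp only [h, if_false]
      exact hx
  · intro x _ y _ z hz
    exact hz

/-- Cosets of subgroups of a product of groups are Gumm pieces. -/
theorem coset_piece {V : Type} {r : ℕ} {X : Fin r → Type} [∀ j, Group (X j)]
    (U : Subgroup (∀ j, X j)) (a : ∀ j, X j) (f : (Σ j, X j) → V) (hf : Function.Injective f) :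
    GummPiece r (edge f '' {x | a⁻¹ * x ∈ U}) := by
  refine malcev_piece (fun j x y z => x * y⁻¹ * z) ?_ f hf _ ?_
  · intro j x z
    exact ⟨by group, by group⟩
  · intro x hx y hy z hz
    have hx' : a⁻¹ * x ∈ U := hx
    have hy' : a⁻¹ * y ∈ U := hy
    have hz' : a⁻¹ * z ∈ U := hz
    have h1 := U.mul_mem (U.mul_mem hx' (U.inv_mem hy')) hz'
    show a⁻¹ * (x * y⁻¹ * z) ∈ U
    have h2 : a⁻¹ * x * (a⁻¹ * y)⁻¹ * (a⁻¹ * z) = a⁻¹ * (x * y⁻¹ * z) := by group
    rwa [h2] at h1

end Pool.Agent.Run7.h551.GP
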