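import Pool.Agent.Run7.h551.GP.Gumm
import Pool.Agent.R181.MajRel

/-!
# Blocks of type M3: two rows of a generalised latin square
-/

set_option autoImplicit false

universe u

namespace Pool.Agent.Run7.h551.GP

open Finset Pool.Agent.R181.Maj Pool.Agent.R181.LW

variable {A : Type u} {n : ℕ} {q : ℕ → A → A → A → A} {p : A → A → A → A}

/-- A block of type M3 between `e` and `d`, for the kernels of three maps. -/
structure M3 {X : Fin 3 → Type*} (q : ℕ → A → A → A → A) (p : A → A → A → A) (f : ∀ k, A → X k)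
    (φ : Fin 3 → Setoid A) (e d : Setoid A) : Prop where
  cp : ∀ k, Cp q p (φ k)
  cpa : ∀ k, Cp q p (Setoid.ker (f k) ⊓ d)
  cpe : Cp q p e
  low : ∀ k a b, e a b → φ k a b
  meet : ∀ k l, k ≠ l → ∀ a b, φ k a b → φ l a b → e a b
  join : ∀ k l, k ≠ l → d ≤ φ k ⊔ φ l
  le : ∀ k a b, φ k a b → d a b
  al : ∀ k, φ k ≤ (Setoid.ker (f k) ⊓ d) ⊔ e
  kd : ∀ k a b, f k a = f k b → d a b → φ k a b
  pair : ∀ k l, k ≠ l → ∀ a b, f k a = f k b → f l a = f l b → e a b
  ind : ∀ P : A → Prop, (∀ k l, k ≠ l → ∀ a b, f k a = f k b → f l a = f l b → P a → P b) →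
    ∀ a b, e a b → P a → P b

theorem sup_ind {s t : Setoid A} (P : A → Prop) (hs : ∀ x y, s x y → P x → P y)
    (ht : ∀ x y, t x y → P x → P y) {x y : A} (h : (s ⊔ t) x y) : P x ↔ P y := by
  rw [Setoid.sup_eq_eqvGen] at h
  have h' : Relation.EqvGen (fun x y => s x y ∨ t x y) x y := h
  clear h
  induction h' with
  | rel a b hab =>
    rcases hab with hab | hab
    · exact ⟨hs _ _ hab, hs _ _ (s.symm hab)⟩
    · exact ⟨ht _ _ hab, ht _ _ (t.symm hab)⟩
  | refl a => exact Iff.rfl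
  | symm a b _ ih => exact ih.symm
  | trans a b c _ _ ih1 ih2 => exact ih1.trans ih2

variable {X : Fin 3 → Type*} {f : ∀ k, A → X k} {φ : Fin 3 → Setoid A} {e d : Setoid A}

/-- The last operation is a Malcev operation on the classes of the three congruences, up to `e`. -/
theorem pm (h : G n q p) (hM : M3 q p f φ e d) (k : Fin 3) {x w : A} (hxw : φ k x w) :
    e (p x w w) x := by
  have hex : ∀ k : Fin 3, ∃ l m : Fin 3, l ≠ k ∧ m ≠ k ∧ l ≠ m := by decide
  obtain ⟨l, m, hl, hm, hlm⟩ := hex k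
  have one : ∀ i j, j ≠ k → ∀ c c', φ j c c' → e (q i x c w) x → e (q i x c' w) x := by
    intro i j hj c c' hc hx
    refine hM.meet j k hj _ _ ?_ ?_
    · exact (φ j).trans ((hM.cp j).q i x x c' c w w ((φ j).refl _) ((φ j).symm hc)
        ((φ j).refl _)) (hM.low j _ _ hx)
    · have h1 := (hM.cp k).q i x x c' c' w x ((φ k).refl _) ((φ k).refl _) ((φ k).symm hxw)
      rwa [h.mid] at h1
  have tr : ∀ i, e (q i x x w) x ↔ e (q i x w w) x := by
    intro i
    exact sup_ind (fun c => e (q i x c w) x) (fun c c' hc => one i l hl c c' hc)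
      (fun c c' hc => one i m hm c c' hc) (hM.join l m hlm (hM.le k _ _ hxw))
  have chain : ∀ i, i ≤ n → e (q i x x w) x ∧ e (q i x w w) x := by
    intro i
    induction i with
    | zero =>
      intro _
      rw [h.zero, h.zero]
      exact ⟨e.refl _, e.refl _⟩
    | succ i ih =>
      intro hi
      obtain ⟨h1, h2⟩ := ih (by omega)
      rcases h.link i (by omega) with hlk | hlk
      · rw [hlk] at h2
        exact ⟨(tr _).2 h2, h2⟩
      · rw [hlk] at h1
        exact ⟨h1, (tr _).1 h1⟩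
  rw [← h.last]
  exact (chain n le_rfl).2

/-- The three congruences permute. -/
theorem comp (h : G n q p) (hM : M3 q p f φ e d) {k l : Fin 3} (hkl : k ≠ l) {a b : A}
    (hab : d a b) : ∃ c, φ k a c ∧ φ l c b := by
  have swap : ∀ x w z, φ l x w → φ k w z → ∃ v, φ k x v ∧ φ l v z := by
    intro x w z h1 h2
    refine ⟨p x w z, ?_, ?_⟩
    · have e1 := (hM.cp k).p x x w w z w ((φ k).refl _) ((φ k).refl _) ((φ k).symm h2)
      exact (φ k).symm ((φ k).trans e1 (hM.low k _ _ (pm h hM l h1)))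
    · have e1 := (hM.cp l).p x w w w z z h1 ((φ l).refl _) ((φ l).refl _)
      rwa [h.right] at e1
  refine (sup_ind (s := φ k) (t := φ l) (fun b => ∃ c, φ k a c ∧ φ l c b) ?_ ?_
    (hM.join k l hkl hab)).1 ⟨a, (φ k).refl _, (φ l).refl _⟩
  · rintro x y hxy ⟨c, h1, h2⟩
    obtain ⟨v, hv1, hv2⟩ := swap c x y h2 hxy
    exact ⟨v, (φ k).trans h1 hv1, hv2⟩
  · rintro x y hxy ⟨c, h1, h2⟩
    exact ⟨c, h1, (φ l).trans h2 hxy⟩

/-- The kernel of a coordinate and `e` permute in the block. -/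
theorem perm (h : G n q p) (hM : M3 q p f φ e d) (k : Fin 3) {a b : A} (hab : φ k a b) :
    ∃ v, f k v = f k a ∧ e v b := by
  set α : Setoid A := Setoid.ker (f k) ⊓ d with hα
  have swap : ∀ v z z', e v z → α z z' → ∃ v', α v v' ∧ e v' z' := by
    intro v z z' h1 h2
    refine ⟨p z' z v, ?_, ?_⟩
    · have e1 := (hM.cpa k).p z' z z z v v (α.symm h2) (α.refl _) (α.refl _)
      rw [h.right] at e1
      exact α.symm e1
    · have e1 := hM.cpe.p z' z' z z v z (e.refl _) (e.refl _) h1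
      exact e.trans e1 (pm h hM k (hM.kd k _ _ (α.symm h2).1 (α.symm h2).2))
  obtain ⟨v, hv1, hv2⟩ := (sup_ind (s := α) (t := e) (fun b => ∃ v, α a v ∧ e v b) (by
    rintro x y hxy ⟨c, h1, h2⟩
    obtain ⟨v, hv1, hv2⟩ := swap c x y h2 hxy
    exact ⟨v, α.trans h1 hv1, hv2⟩) (by
    rintro x y hxy ⟨c, h1, h2⟩
    exact ⟨c, h1, e.trans h2 hxy⟩) (hM.al k hab)).1 ⟨a, α.refl _, e.refl _⟩
  have h3 : f k a = f k v := hv1.1
  exact ⟨v, h3.symm, hv2⟩

/-- Every row of the block contains a given value of another coordinate. -/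
theorem hit (h : G n q p) (hM : M3 q p f φ e d) {k : Fin 3} (hk : k ≠ 0) {a b : A}
    (hab : d a b) : ∃ v, φ 0 a v ∧ f k v = f k b := by
  obtain ⟨c, hc1, hc2⟩ := comp h hM hk.symm hab
  obtain ⟨v, hv1, hv2⟩ := perm h hM k ((φ k).symm hc2)
  exact ⟨v, (φ 0).trans hc1 (hM.low 0 _ _ (e.symm hv2)), hv1⟩

theorem conn_le {Y Z : Type*} [DecidableEq A] [DecidableEq Y] [DecidableEq Z] (y : A → Y)
    (z : A → Z) (S : Finset A) (s0 : A) (hs0 : s0 ∈ S)
    (hS : ∀ T ⊆ S, s0 ∈ T → T ≠ S → ∃ b ∈ S, b ∉ T ∧ (y b ∈ T.image y ∨ z b ∈ T.image z)) :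
    #(S.image y) + #(S.image z) ≤ #S + 1 := by
  have key : ∀ t, 1 ≤ t → t ≤ #S →
      ∃ T ⊆ S, s0 ∈ T ∧ #T = t ∧ #(T.image y) + #(T.image z) ≤ t + 1 := by
    intro t ht
    induction t, ht using Nat.le_induction with
    | base =>
      intro _
      exact ⟨{s0}, singleton_subset_iff.2 hs0, mem_singleton_self _, card_singleton _, by simp⟩
    | succ t ht ih =>
      intro hle
      obtain ⟨T, hTS, h0, hTt, hT⟩ := ih (by omega)
      obtain ⟨b, hb, hbT, hb'⟩ := hS T hTS h0 (by rintro rfl; omega)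
      refine ⟨insert b T, insert_subset_iff.2 ⟨hb, hTS⟩, mem_insert_of_mem h0, by
        rw [card_insert_of_notMem hbT, hTt], ?_⟩
      rw [image_insert, image_insert]
      rcases hb' with hb' | hb'
      · rw [insert_eq_of_mem hb']
        have := card_insert_le (z b) (T.image z)
        omega
      · rw [insert_eq_of_mem hb']
        have := card_insert_le (y b) (T.image y)
        omega
  obtain ⟨T, hTS, -, hTt, hT⟩ := key #S (card_pos.2 ⟨s0, hs0⟩) le_rfl
  have h1 : T = S := eq_of_subset_of_card_le hTS hTt.ge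
  rwa [h1] at hT

section Rows

variable [Fintype A] [DecidableEq A] [∀ k, DecidableEq (X k)]

/-- the row of `a` -/
noncomputable def row (φ : Fin 3 → Setoid A) (a : A) : Finset A := by
  classical exact univ.filter fun b => φ 0 a b

omit [DecidableEq A] in
theorem mem_row {a b : A} : b ∈ row φ a ↔ φ 0 a b := by
  classical
  unfold row
  rw [mem_filter]
  exact ⟨fun h => h.2, fun h => ⟨mem_univ _, h⟩⟩

/-- closed sets -/
def Closed (f : ∀ k, A → X k) (W T : Finset A) : Prop :=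
  ∀ b ∈ W, ∀ k l, k ≠ l → f k b ∈ T.image (f k) → f l b ∈ T.image (f l) → b ∈ T

omit [Fintype A] [DecidableEq A] in
theorem closed_e (hM : M3 q p f φ e d) {W T : Finset A} (hW : ∀ b b', e b b' → b ∈ W → b' ∈ W)
    (hTW : T ⊆ W) (hT : Closed f W T) : ∀ b b', e b b' → b ∈ T → b' ∈ T :=
  hM.ind (· ∈ T) fun k l hkl a b h1 h2 ha =>
    hT b (hW a b (hM.pair k l hkl a b h1 h2) (hTW ha)) k l hkl (h1 ▸ mem_image_of_mem _ ha)
      (h2 ▸ mem_image_of_mem _ ha)

omit [Fintype A] [DecidableEq A] in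
theorem closed_img (h : G n q p) (hM : M3 q p f φ e d) {T : Finset A}
    (hT : ∀ b b', e b b' → b ∈ T → b' ∈ T) {k : Fin 3} {t b : A} (ht : t ∈ T) (htb : φ k t b) :
    f k b ∈ T.image (f k) := by
  obtain ⟨v, hv1, hv2⟩ := perm h hM k ((φ k).symm htb)
  rw [← hv1]
  exact mem_image_of_mem _ (hT t v (e.symm hv2) ht)

theorem rows_le (h : G n q p) (hM : M3 q p f φ e d) {T : Finset A}
    (hT : ∀ b b', e b b' → b ∈ T → b' ∈ T) {k : Fin 3} (hk : k ≠ 0) {a t0 : A}
    (ht0 : t0 ∈ T ∩ row φ a) :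
    #((T ∩ row φ a).image (f 0)) + #((T ∩ row φ a).image (f k)) ≤ #(T ∩ row φ a) + 1 := by
  refine conn_le (f 0) (f k) _ t0 ht0 ?_
  intro S hS h0 hne
  by_contra hcon
  push Not at hcon
  have hcl : ∀ b b', e b b' → b ∈ T ∩ row φ a → b' ∈ T ∩ row φ a := by
    intro b b' hb hbT
    rw [mem_inter, mem_row] at hbT ⊢
    exact ⟨hT _ _ hb hbT.1, (φ 0).trans hbT.2 (hM.low 0 _ _ hb)⟩
  refine hne (Subset.antisymm hS fun b hb => ?_)
  have h1 : φ 0 t0 b := (φ 0).trans ((φ 0).symm (mem_row.1 (mem_inter.1 ht0).2))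
    (mem_row.1 (mem_inter.1 hb).2)
  obtain ⟨v, hv1, hv2⟩ := perm h hM 0 h1
  have hvT : v ∈ T ∩ row φ a := hcl b v (e.symm hv2) hb
  have hvS : v ∈ S := by
    by_contra hv
    exact (hcon v hvT hv).1 (hv1 ▸ mem_image_of_mem _ h0)
  refine hM.ind (· ∈ S) ?_ v b hv2 hvS
  intro k' l' hkl x y h2 h3 hx
  have hyT : y ∈ T ∩ row φ a := hcl x y (hM.pair k' l' hkl x y h2 h3) (hS hx)
  by_contra hy
  obtain ⟨h4, h5⟩ := hcon y hyT hy
  have h6 : ∀ k k' l' : Fin 3, k ≠ 0 → k' ≠ l' → (k' = 0 ∨ k' = k ∨ l' = 0 ∨ l' = k) := by decide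
  rcases h6 k k' l' hk hkl with rfl | rfl | rfl | rfl
  · exact h4 (h2 ▸ mem_image_of_mem _ hx)
  · exact h5 (h2 ▸ mem_image_of_mem _ hx)
  · exact h4 (h3 ▸ mem_image_of_mem _ hx)
  · exact h5 (h3 ▸ mem_image_of_mem _ hx)

omit [Fintype A] in
theorem spn_insert (T : Finset A) (b : A) (K : Finset (Fin 3))
    (hK : ∀ k ∈ K, f k b ∈ T.image (f k)) : spn f (insert b T) + #K ≤ spn f T + 3 := by
  have h1 : #K = ∑ k : Fin 3, if k ∈ K then 1 else 0 := by
    rw [sum_ite_mem, univ_inter, card_eq_sum_ones]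
  have h2 : spn f T + 3 = ∑ k : Fin 3, (#(T.image (f k)) + 1) := by
    rw [sum_add_distrib]
    simp [spn]
  rw [h2, h1]
  unfold spn
  rw [← sum_add_distrib]
  refine sum_le_sum fun k _ => ?_
  rw [image_insert]
  by_cases hk : k ∈ K
  · rw [if_pos hk, insert_eq_of_mem (hK k hk)]
  · rw [if_neg hk]
    exact card_insert_le _ _

theorem closed_bound (h : G n q p) (hM : M3 q p f φ e d) {a0 a1 : A} (hd : d a0 a1)
    (hn : ¬ φ 0 a0 a1) {T : Finset A} (hTW : T ⊆ row φ a0 ∪ row φ a1)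
    (hcl : Closed f (row φ a0 ∪ row φ a1) T) (hT : ∀ b b', e b b' → b ∈ T → b' ∈ T)
    (h0 : a0 ∈ T) {t1 : A} (h1 : t1 ∈ T ∩ row φ a1) : spn f T ≤ #T + 2 := by
  have hd0 : ∀ t ∈ T, d a0 t := by
    intro t ht
    rcases mem_union.1 (hTW ht) with h2 | h2
    · exact hM.le 0 _ _ (mem_row.1 h2)
    · exact d.trans hd (hM.le 0 _ _ (mem_row.1 h2))
  have e1 := rows_le (k := 1) h hM hT (by decide) (a := a0) (t0 := a0)
    (mem_inter.2 ⟨h0, mem_row.2 ((φ 0).refl _)⟩)
  have e2 := rows_le (k := 2) h hM hT (by decide) h1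
  have e3 : T.image (f 0) ⊆ (T ∩ row φ a0).image (f 0) ∪ (T ∩ row φ a1).image (f 0) := by
    rw [← image_union, ← inter_union_distrib_left]
    refine image_subset_image fun t ht => mem_inter.2 ⟨ht, hTW ht⟩
  have e4 : T.image (f 1) ⊆ (T ∩ row φ a0).image (f 1) := by
    intro x hx
    obtain ⟨t, ht, rfl⟩ := mem_image.1 hx
    obtain ⟨v, hv1, hv2⟩ := hit h hM (k := 1) (by decide) (hd0 t ht)
    have hvT : v ∈ T := hcl v (mem_union_left _ (mem_row.2 hv1)) 0 1 (by decide)
      (closed_img h hM hT h0 hv1) (by rw [hv2]; exact mem_image_of_mem _ ht)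
    exact mem_image.2 ⟨v, mem_inter.2 ⟨hvT, mem_row.2 hv1⟩, hv2⟩
  have e5 : T.image (f 2) ⊆ (T ∩ row φ a1).image (f 2) := by
    intro x hx
    obtain ⟨t, ht, rfl⟩ := mem_image.1 hx
    obtain ⟨v, hv1, hv2⟩ := hit h hM (k := 2) (by decide) (d.trans (d.symm hd) (hd0 t ht))
    have hvT : v ∈ T := hcl v (mem_union_right _ (mem_row.2 hv1)) 0 2 (by decide)
      (closed_img h hM hT (mem_inter.1 h1).1
        ((φ 0).trans ((φ 0).symm (mem_row.1 (mem_inter.1 h1).2)) hv1))
      (by rw [hv2]; exact mem_image_of_mem _ ht)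
    exact mem_image.2 ⟨v, mem_inter.2 ⟨hvT, mem_row.2 hv1⟩, hv2⟩
  have e6 : #(T ∩ row φ a0) + #(T ∩ row φ a1) ≤ #T := by
    rw [← card_union_of_disjoint]
    · exact card_le_card (union_subset inter_subset_left inter_subset_left)
    · rw [disjoint_left]
      intro b hb hb'
      have h2 := mem_row.1 (mem_inter.1 hb).2
      have h3 := mem_row.1 (mem_inter.1 hb').2
      exact hn ((φ 0).trans h2 ((φ 0).symm h3))
  have e7 := (card_le_card e3).trans (card_union_le _ _)
  have e8 := card_le_card e4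
  have e9 := card_le_card e5
  unfold spn
  rw [Fin.sum_univ_three]
  omega

/-- Cells of two rows, one after the other. -/
theorem grow (h : G n q p) (hM : M3 q p f φ e d) {a0 a1 : A} (hd : d a0 a1) (hn : ¬ φ 0 a0 a1)
    (t : ℕ) (ht : 1 ≤ t) : t ≤ #(row φ a0 ∪ row φ a1) →
    ∃ T ⊆ row φ a0 ∪ row φ a1, #T = t ∧ a0 ∈ T ∧ ((spn f T ≤ t + 2 ∧ ∀ b ∈ T, e a0 b) ∨
      (spn f T ≤ t + 3 ∧ (T ∩ row φ a1).Nonempty)) := by
  have hdW : ∀ t ∈ row φ a0 ∪ row φ a1, d a0 t := by
    intro t ht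
    rcases mem_union.1 ht with h2 | h2
    · exact hM.le 0 _ _ (mem_row.1 h2)
    · exact d.trans hd (hM.le 0 _ _ (mem_row.1 h2))
  have hW : ∀ b b', e b b' → b ∈ row φ a0 ∪ row φ a1 → b' ∈ row φ a0 ∪ row φ a1 := by
    intro b b' hb hbW
    rw [mem_union, mem_row, mem_row] at hbW ⊢
    rcases hbW with h2 | h2
    · exact Or.inl ((φ 0).trans h2 (hM.low 0 _ _ hb))
    · exact Or.inr ((φ 0).trans h2 (hM.low 0 _ _ hb))
  induction t, ht using Nat.le_induction with
  | base =>
    intro _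
    refine ⟨{a0}, singleton_subset_iff.2 (mem_union_left _ (mem_row.2 ((φ 0).refl _))),
      card_singleton _, mem_singleton_self _, Or.inl ⟨?_, ?_⟩⟩
    · simp [spn]
    · intro b hb
      rw [mem_singleton.1 hb]
  | succ t ht ih =>
    intro hle
    obtain ⟨T, hTW, hTt, h0, hT⟩ := ih (by omega)
    by_cases hcl : Closed f (row φ a0 ∪ row φ a1) T
    · have hTe := closed_e hM hW hTW hcl
      rcases hT with ⟨hT, hTb⟩ | ⟨hT, hT1⟩
      · obtain ⟨v, hv1, hv2⟩ := hit h hM (k := 1) (by decide) (d.symm hd)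
        have hvT : v ∉ T := fun hv => hn ((φ 0).trans (hM.low 0 _ _ (hTb v hv)) ((φ 0).symm hv1))
        have h2 := spn_insert (f := f) T v {1} (by
          intro k hk
          rw [mem_singleton.1 hk, hv2]
          exact mem_image_of_mem _ h0)
        rw [card_singleton] at h2
        refine ⟨insert v T, insert_subset_iff.2 ⟨mem_union_right _ (mem_row.2 hv1), hTW⟩, by
          rw [card_insert_of_notMem hvT, hTt], mem_insert_of_mem h0, Or.inr ⟨by omega, v, ?_⟩⟩
        exact mem_inter.2 ⟨mem_insert_self _ _, mem_row.2 hv1⟩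
      · obtain ⟨t1, ht1⟩ := hT1
        have h2 := closed_bound h hM hd hn hTW hcl hTe h0 ht1
        obtain ⟨b, hb, hbT⟩ : ∃ b ∈ row φ a0 ∪ row φ a1, b ∉ T := by
          by_contra hcon
          push Not at hcon
          have := card_le_card (show row φ a0 ∪ row φ a1 ⊆ T from fun b hb => hcon b hb)
          omega
        have h3 := spn_insert (f := f) T b {0} (by
          intro k hk
          rw [mem_singleton.1 hk]
          rcases mem_union.1 hb with h4 | h4
          · exact closed_img h hM hTe h0 (mem_row.1 h4)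
          · exact closed_img h hM hTe (mem_inter.1 ht1).1
              ((φ 0).trans ((φ 0).symm (mem_row.1 (mem_inter.1 ht1).2)) (mem_row.1 h4)))
        rw [card_singleton] at h3
        refine ⟨insert b T, insert_subset_iff.2 ⟨hb, hTW⟩, by
          rw [card_insert_of_notMem hbT, hTt], mem_insert_of_mem h0, Or.inr ⟨by omega, t1, ?_⟩⟩
        exact mem_inter.2 ⟨mem_insert_of_mem (mem_inter.1 ht1).1, (mem_inter.1 ht1).2⟩
    · unfold Closed at hcl
      push Not at hcl
      obtain ⟨b, hb, k, l, hkl, h1, h2, hbT⟩ := hcl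
      have h3 := spn_insert (f := f) T b {k, l} (by
        intro j hj
        rcases mem_insert.1 hj with rfl | hj
        · exact h1
        · rw [mem_singleton.1 hj]
          exact h2)
      rw [card_pair hkl] at h3
      refine ⟨insert b T, insert_subset_iff.2 ⟨hb, hTW⟩, by
        rw [card_insert_of_notMem hbT, hTt], mem_insert_of_mem h0, ?_⟩
      rcases hT with ⟨hT, hTb⟩ | ⟨hT, hT1⟩
      · left
        refine ⟨by omega, ?_⟩
        have key : ∀ j, f j b ∈ T.image (f j) → φ j b a0 := by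
          intro j hj
          obtain ⟨c, hc, hcb⟩ := mem_image.1 hj
          exact (φ j).trans (hM.kd j b c hcb.symm (d.trans (d.symm (hdW b hb))
            (hdW c (hTW hc)))) (hM.low j _ _ (e.symm (hTb c hc)))
        intro x hx
        rcases mem_insert.1 hx with rfl | hx
        · exact e.symm (hM.meet k l hkl _ _ (key k h1) (key l h2))
        · exact hTb x hx
      · right
        obtain ⟨t1, ht1⟩ := hT1
        exact ⟨by omega, t1, mem_inter.2 ⟨mem_insert_of_mem (mem_inter.1 ht1).1,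
          (mem_inter.1 ht1).2⟩⟩

omit [Fintype A] [DecidableEq A] [∀ k, DecidableEq (X k)] in
theorem share_e (hM : M3 q p f φ e d) {a b : A} (hab : Relation.EqvGen (Share f) a b) : e a b := by
  induction hab with
  | rel a b hab =>
    obtain ⟨k, l, hkl, h1, h2⟩ := hab
    exact hM.pair k l hkl _ _ h1 h2
  | refl a => exact e.refl _
  | symm a b _ ih => exact e.symm ih
  | trans a b c _ _ ih1 ih2 => exact e.trans ih1 ih2

theorem two_rows (h : G n q p) (hM : M3 q p f φ e d) {a0 a1 : A} (hd : d a0 a1)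
    (hn : ¬ φ 0 a0 a1) (s : ℕ) (hs : 1 ≤ s)
    (hsp : ∀ T : Finset A, #T = s → s + 3 < ∑ k, #(T.image (f k))) :
    #(row φ a0) + #(row φ a1) ≤ s - 1 := by
  by_contra hcon
  have hdisj : Disjoint (row φ a0) (row φ a1) := by
    rw [disjoint_left]
    intro b hb hb'
    exact hn ((φ 0).trans (mem_row.1 hb) ((φ 0).symm (mem_row.1 hb')))
  have hle : s ≤ #(row φ a0 ∪ row φ a1) := by
    rw [card_union_of_disjoint hdisj]
    omega
  obtain ⟨T, -, hTs, -, hT⟩ := grow h hM hd hn s hs hle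
  have h1 : s + 3 < spn f T := hsp T hTs
  rcases hT with hT | hT
  · omega
  · omega

omit [∀ k, DecidableEq (X k)] in
theorem rows_count (h : G n q p) (hM : M3 q p f φ e d) (a : A) (D : Finset A)
    (hD : ∀ b ∈ D, d a b) [DecidableEq (Quotient (φ 0))] :
    #(D.image fun b => (Quotient.mk (φ 0) b)) ≤ #(row φ a) := by
  have hc : ∀ b : A, ∃ g, d a b → (φ 0 a g ∧ ∃ c, φ 0 b c ∧ φ 1 c a ∧ φ 2 g c) := by
    intro b
    by_cases hb : d a b
    · obtain ⟨c, hc1, hc2⟩ := comp h hM (show (0 : Fin 3) ≠ 1 by decide) (d.symm hb)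
      obtain ⟨g, hg1, hg2⟩ := comp h hM (show (0 : Fin 3) ≠ 2 by decide)
        (d.symm (hM.le 1 _ _ hc2))
      exact ⟨g, fun _ => ⟨hg1, c, hc1, hc2, hg2⟩⟩
    · exact ⟨b, fun h' => absurd h' hb⟩
  choose g hg using hc
  refine (card_image_le_of_factor D g _ ?_).trans (card_le_card ?_)
  · intro x hx y hy hxy
    obtain ⟨-, c, h1, h2, h3⟩ := hg x (hD x hx)
    obtain ⟨-, c', h1', h2', h3'⟩ := hg y (hD y hy)
    rw [hxy] at h3
    have h4 : e c c' := hM.meet 1 2 (by decide) _ _ ((φ 1).trans h2 ((φ 1).symm h2'))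
      ((φ 2).trans ((φ 2).symm h3) h3')
    exact Quotient.sound ((φ 0).trans h1 ((φ 0).trans (hM.low 0 _ _ h4) ((φ 0).symm h1')))
  · intro x hx
    obtain ⟨b, hb, rfl⟩ := mem_image.1 hx
    exact mem_row.2 (hg b (hD b hb)).1

/-- The classes of `d` are small. -/
theorem class_bound (h : G n q p) (hM : M3 q p f φ e d) (s : ℕ) (hs : 3 ≤ s)
    (hsp : ∀ T : Finset A, #T = s → s + 3 < ∑ k, #(T.image (f k))) (a0 : A)
    (D : Finset A) (hD : ∀ b ∈ D, d a0 b) : 2 * #D ≤ (s - 1) ^ 2 := by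
  classical
  by_cases hone : ∀ b, d a0 b → φ 0 a0 b
  · have h1 : D ⊆ univ.filter fun b => e a0 b := by
      intro b hb
      obtain ⟨c, hc1, hc2⟩ := comp h hM (show (1 : Fin 3) ≠ 2 by decide) (hD b hb)
      have h2 := hone c (hM.le 1 _ _ hc1)
      have h3 : e a0 c := hM.meet 0 1 (by decide) _ _ h2 hc1
      have h4 : e c b := hM.meet 0 2 (by decide) _ _
        ((φ 0).trans ((φ 0).symm h2) (hone b (hD b hb))) hc2
      exact mem_filter.2 ⟨mem_univ _, e.trans h3 h4⟩
    have h2 : #(univ.filter fun b => e a0 b) ≤ s - 1 := by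
      by_contra hcon
      obtain ⟨T, -, hTs, hT⟩ := growth (by norm_num : 2 ≤ 3) f a0 (univ.filter fun b => e a0 b)
        (fun y => by
          rw [mem_filter]
          constructor
          · intro hy
            exact hM.ind (fun z => Relation.EqvGen (Share f) a0 z) (fun k l hkl a b h1 h2 ha =>
              Relation.EqvGen.trans _ _ _ ha (Relation.EqvGen.rel _ _ ⟨k, l, hkl, h1, h2⟩)) a0 y
              hy.2 (Relation.EqvGen.refl _)
          · intro hy
            exact ⟨mem_univ _, share_e hM hy⟩) s (by omega) (by omega)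
      have h3 : s + 3 < spn f T := hsp T hTs
      omega
    have h3 := card_le_card h1
    obtain ⟨m, hm⟩ : ∃ m, s - 1 = m := ⟨_, rfl⟩
    rw [hm] at h2 ⊢
    have h4 : 2 * m ≤ m * m := Nat.mul_le_mul_right _ (by omega)
    rw [pow_two]
    omega
  · push Not at hone
    obtain ⟨a1, hd1, hn1⟩ := hone
    have h12 := two_rows h hM hd1 hn1 s (by omega) hsp
    have hr0 := rows_count h hM a0 D hD
    have hr1 := rows_count h hM a1 D fun b hb => d.trans (d.symm hd1) (hD b hb)
    have hrow : ∀ b ∈ D, #(row φ b) ≤ s - 1 := by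
      intro b hb
      by_cases hb0 : φ 0 b a0
      · have hb1 : ¬ φ 0 b a1 := fun h' => hn1 ((φ 0).trans ((φ 0).symm hb0) h')
        have := two_rows h hM (d.trans (d.symm (hD b hb)) hd1) hb1 s (by omega) hsp
        omega
      · have := two_rows h hM (d.symm (hD b hb)) hb0 s (by omega) hsp
        omega
    have h3 : #D ≤ (s - 1) * #(D.image fun b => (Quotient.mk (φ 0) b)) := by
      refine card_le_mul_card_image D _ ?_
      intro x hx
      obtain ⟨b, hb, rfl⟩ := mem_image.1 hx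
      refine (card_le_card ?_).trans (hrow b hb)
      intro y hy
      rw [mem_filter] at hy
      exact mem_row.2 ((φ 0).symm (Quotient.exact hy.2))
    obtain ⟨R, hR⟩ : ∃ R, #(D.image fun b => (Quotient.mk (φ 0) b)) = R := ⟨_, rfl⟩
    rw [hR] at h3 hr0 hr1
    calc 2 * #D ≤ 2 * ((s - 1) * R) := Nat.mul_le_mul_left _ h3
      _ = (s - 1) * (2 * R) := by ring
      _ ≤ (s - 1) * (s - 1) := Nat.mul_le_mul_left _ (by omega)
      _ = (s - 1) ^ 2 := by ring

end Rows

end Pool.Agent.Run7.h551.GP
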