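import Pool.Agent.Run7.h551.GP.Piece

/-!
# Linear spaces with many edges and no three edges on `3 r - 3` vertices
-/

set_option autoImplicit false

namespace Pool.Agent.Run7.h551.GP

open Finset Pool.Agent.R181.Maj Pool.Agent.R181.LW

theorem span_of_points {P : Type} [Fintype P] [DecidableEq P] {r : ℕ} {X : Fin r → Type}
    [∀ i, DecidableEq (X i)] (g : P → ∀ i, X i) (hg : Function.Injective g) (s d : ℕ)
    (h : ∀ T : Finset P, #T = s → d < ∑ i, #(T.image fun x => g x i)) :
    SpanMore (edge (V := Σ i, X i) id '' Set.range g) s d := by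
  classical
  intro T hT hTs
  set G' : P → Finset (Σ i, X i) := fun x => edge (V := Σ i, X i) id (g x) with hG'
  have hinj : Function.Injective G' := (edge_injective Function.injective_id).comp hg
  set Q : Finset P := univ.filter fun x => G' x ∈ T with hQ
  have hQT : Q.image G' = T := by
    ext a
    rw [mem_image]
    constructor
    · rintro ⟨x, hx, rfl⟩
      exact (mem_filter.1 hx).2
    · intro ha
      obtain ⟨_, ⟨x, rfl⟩, rfl⟩ := hT ha
      exact ⟨x, mem_filter.2 ⟨mem_univ _, ha⟩, rfl⟩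
  have hQs : #Q = s := by
    rw [← hTs, ← hQT, card_image_of_injective _ hinj]
  have h1 : T = (Q.image g).image (edge (V := Σ i, X i) id) := by
    rw [image_image, ← hQT]
    rfl
  have h2 := union_eq (V := Σ i, X i) (X := X) (f := id) Function.injective_id (Q.image g)
  rw [← h1] at h2
  rw [h2]
  have h3 : ∀ i : Fin r, (Q.image g).image (fun x => x i) = Q.image fun x => g x i := by
    intro i
    rw [image_image]
    rfl
  simp only [h3]
  exact h Q hQs

variable {K : Type} [Field K]

/-- A linear map with the kernel generated by `(1, t, t ^ 2)`. -/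
def crd (t : K) (x : K × K × K) : K × K := (x.2.1 - t * x.1, x.2.2 - t ^ 2 * x.1)

theorem crd_lin (t : K) (x y z : K × K × K) :
    crd t (x - y + z) = crd t x - crd t y + crd t z := by
  refine Prod.ext ?_ ?_
  · show x.2.1 - y.2.1 + z.2.1 - t * (x.1 - y.1 + z.1) =
      x.2.1 - t * x.1 - (y.2.1 - t * y.1) + (z.2.1 - t * z.1)
    ring
  · show x.2.2 - y.2.2 + z.2.2 - t ^ 2 * (x.1 - y.1 + z.1) =
      x.2.2 - t ^ 2 * x.1 - (y.2.2 - t ^ 2 * y.1) + (z.2.2 - t ^ 2 * z.1)
    ring

theorem dir_unique {a b : K × K × K} (hab : a ≠ b) {t t' : K} (h : crd t a = crd t b)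
    (h' : crd t' a = crd t' b) : t = t' := by
  obtain ⟨a0, a1, a2⟩ := a
  obtain ⟨b0, b1, b2⟩ := b
  simp only [crd, Prod.mk.injEq] at h h'
  by_cases h0 : a0 = b0
  · subst h0
    exact absurd (by rw [sub_left_injective h.1, sub_left_injective h.2]) hab
  · have h1 : (t - t') * (a0 - b0) = 0 := by linear_combination h'.1 - h.1
    rcases mul_eq_zero.1 h1 with h2 | h2
    · exact sub_eq_zero.1 h2
    · exact absurd (sub_eq_zero.1 h2) h0

theorem fst_ne {a b : K × K × K} (hab : a ≠ b) {t : K} (h : crd t a = crd t b) :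
    a.1 - b.1 ≠ 0 := by
  obtain ⟨a0, a1, a2⟩ := a
  obtain ⟨b0, b1, b2⟩ := b
  simp only [crd, Prod.mk.injEq] at h
  intro h0
  have h1 : a0 = b0 := sub_eq_zero.1 h0
  subst h1
  exact hab (by rw [sub_left_injective h.1, sub_left_injective h.2])

theorem dir_three {a b c : K × K × K} (hab : a ≠ b) (hbc : b ≠ c) (hac : a ≠ c) {t1 t2 t3 : K}
    (h1 : crd t1 a = crd t1 b) (h2 : crd t2 b = crd t2 c) (h3 : crd t3 a = crd t3 c) :
    t1 = t3 := by
  have n1 := fst_ne hab h1
  have n2 := fst_ne hbc h2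
  have n3 := fst_ne hac h3
  obtain ⟨a0, a1, a2⟩ := a
  obtain ⟨b0, b1, b2⟩ := b
  obtain ⟨c0, c1, c2⟩ := c
  simp only [crd, Prod.mk.injEq] at h1 h2 h3 n1 n2 n3
  have e1 : (t1 - t3) * ((t1 - t2) * (a0 - b0)) = 0 := by
    linear_combination h3.2 - h1.2 - h2.2 - (t2 + t3) * (h3.1 - h1.1 - h2.1)
  rcases mul_eq_zero.1 e1 with h4 | h4
  · exact sub_eq_zero.1 h4
  · rcases mul_eq_zero.1 h4 with h5 | h5
    · have h6 : t1 = t2 := sub_eq_zero.1 h5
      subst h6
      have e2 : (t1 - t3) * (a0 - c0) = 0 := by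
        linear_combination h3.1 - h1.1 - h2.1
      rcases mul_eq_zero.1 e2 with h7 | h7
      · exact sub_eq_zero.1 h7
      · exact absurd h7 n3
    · exact absurd h5 n1

theorem three_le {Y : Type*} [DecidableEq Y] (x y z : Y) (h : x = z → x = y) :
    3 ≤ #({x, y, z} : Finset Y) + ((if x = y then 1 else 0) + (if y = z then 1 else 0)) := by
  by_cases h1 : x = y
  · subst h1
    by_cases h2 : x = z
    · subst h2
      simp
    · have : ({x, x, z} : Finset Y) = {x, z} := by simp
      rw [this, card_pair h2, if_pos rfl, if_neg h2]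
  · by_cases h2 : y = z
    · subst h2
      have : ({x, y, y} : Finset Y) = {x, y} := by simp
      rw [this, card_pair h1, if_pos rfl, if_neg h1]
    · have h3 : x ≠ z := fun h' => h1 (h h')
      rw [card_eq_three.2 ⟨x, y, z, h1, h3, h2, rfl⟩]
      omega

variable [DecidableEq K]

theorem key {r : ℕ} (t : Fin r → K) (ht : Function.Injective t) {a b c : K × K × K}
    (hab : a ≠ b) (hbc : b ≠ c)
    (h : ∀ j, crd (t j) a = crd (t j) c → crd (t j) a = crd (t j) b) :
    3 * r ≤ ∑ j, #(({a, b, c} : Finset (K × K × K)).image (crd (t j))) + 2 := by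
  have h1 : ∀ x y : K × K × K, x ≠ y → ∑ j, (if crd (t j) x = crd (t j) y then 1 else 0) ≤ 1 := by
    intro x y hxy
    rw [← sum_filter, ← card_eq_sum_ones, card_le_one]
    intro i hi j hj
    exact ht (dir_unique hxy (mem_filter.1 hi).2 (mem_filter.1 hj).2)
  have h2 : ∑ _j : Fin r, 3 ≤ ∑ j, (#(({a, b, c} : Finset (K × K × K)).image (crd (t j))) +
      ((if crd (t j) a = crd (t j) b then 1 else 0) +
        (if crd (t j) b = crd (t j) c then 1 else 0))) := by
    refine sum_le_sum fun j _ => ?_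
    rw [image_insert, image_insert, image_singleton]
    exact three_le _ _ _ (h j)
  rw [sum_add_distrib, sum_add_distrib, sum_const, card_univ, Fintype.card_fin, smul_eq_mul] at h2
  have h3 := h1 a b hab
  have h4 := h1 b c hbc
  omega

theorem arc_three {r : ℕ} (t : Fin r → K) (ht : Function.Injective t)
    (T : Finset (K × K × K)) (hT : #T = 3) :
    3 * r ≤ ∑ j, #(T.image (crd (t j))) + 2 := by
  obtain ⟨a, b, c, hab, hac, hbc, rfl⟩ := card_eq_three.1 hT
  by_cases h1 : ∃ j, crd (t j) a = crd (t j) b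
  · by_cases h2 : ∃ j, crd (t j) b = crd (t j) c
    · obtain ⟨j1, h1⟩ := h1
      obtain ⟨j2, h2⟩ := h2
      refine key t ht hab hbc fun j hj => ?_
      rw [← dir_three hab hbc hac h1 h2 hj]
      exact h1
    · have e : ({a, b, c} : Finset (K × K × K)) = {b, a, c} := insert_comm _ _ _
      rw [e]
      exact key t ht hab.symm hac fun j hj => absurd ⟨j, hj⟩ h2
  · have e : ({a, b, c} : Finset (K × K × K)) = {a, c, b} := by
      rw [pair_comm]
    rw [e]
    exact key t ht hac hbc.symm fun j hj => absurd ⟨j, hj⟩ h1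

/-- **Sharpness of the exponent for all uniformities.** -/
theorem arc_exists (r q : ℕ) (hr : 3 ≤ r) (hq : q.Prime) (hrq : r ≤ q) :
    ∃ (V : Type) (_ : Fintype V) (H : Set (Finset V)), Fintype.card V = r * q ^ 2 ∧
      GummPiece r H ∧ H.ncard = q ^ 3 ∧ SpanMore H 3 ((r - 2) * 3 + 3) := by
  classical
  have : Fact q.Prime := ⟨hq⟩
  let t : Fin r → ZMod q := fun j => ((j : ℕ) : ZMod q)
  have ht : Function.Injective t := by
    intro i j hij
    have h1 : ((i : ℕ) : ZMod q) = ((j : ℕ) : ZMod q) := hij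
    rw [ZMod.natCast_eq_natCast_iff'] at h1
    rw [Nat.mod_eq_of_lt (i.2.trans_le hrq), Nat.mod_eq_of_lt (j.2.trans_le hrq)] at h1
    exact Fin.ext h1
  let X : Fin r → Type := fun _ => ZMod q × ZMod q
  let g : ZMod q × ZMod q × ZMod q → ∀ j, X j := fun x j => crd (t j) x
  have hg : Function.Injective g := by
    intro a b hab
    by_contra hne
    have h0 : crd (t ⟨0, by omega⟩) a = crd (t ⟨0, by omega⟩) b := congrFun hab ⟨0, by omega⟩
    have h1 : crd (t ⟨1, by omega⟩) a = crd (t ⟨1, by omega⟩) b := congrFun hab ⟨1, by omega⟩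
    have h2 := ht (dir_unique hne h0 h1)
    have h3 : (0 : ℕ) = 1 := congrArg Fin.val h2
    omega
  refine ⟨Σ j, X j, inferInstance, edge (V := Σ j, X j) id '' Set.range g, ?_, ?_, ?_, ?_⟩
  · rw [Fintype.card_sigma]
    simp [X, ZMod.card, pow_two]
  · refine malcev_piece (fun _ x y z => x - y + z) ?_ id Function.injective_id _ ?_
    · intro j x z
      exact ⟨by abel, by abel⟩
    · rintro _ ⟨x, rfl⟩ _ ⟨y, rfl⟩ _ ⟨z, rfl⟩
      exact ⟨x - y + z, funext fun j => crd_lin (t j) x y z⟩
  · rw [Set.ncard_image_of_injective _ (edge_injective Function.injective_id), ← Set.image_univ,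
      Set.ncard_image_of_injective _ hg, Set.ncard_univ, Nat.card_eq_fintype_card,
      Fintype.card_prod, Fintype.card_prod, ZMod.card]
    ring
  · refine span_of_points g hg 3 _ fun T hT => ?_
    have h1 := arc_three t ht T hT
    have h2 : ∑ j, #(T.image (crd (t j))) = ∑ j, #(T.image fun x => g x j) := rfl
    rw [h2] at h1
    omega

/-- The grid, for `r = 3`. -/
theorem grid_exists (q : ℕ) :
    ∃ (V : Type) (_ : Fintype V) (H : Set (Finset V)), Fintype.card V = 3 * q ^ 2 ∧
      GummPiece 3 H ∧ H.ncard = q ^ 3 ∧ ∀ s, 3 ≤ s → s ≤ 16 → SpanMore H s (s + 3) := by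
  refine ⟨GridV 2 q, inferInstance, grid 2 q, card_gridV 2 q, majority_piece (grid_piece 2 q),
    ncard_grid 2 q (by norm_num), fun s h1 h2 => grid_span 2 q s (s + 3) (by norm_num) (by omega)
      ?_⟩
  interval_cases s <;> norm_num

end Pool.Agent.Run7.h551.GP
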