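import Pool.Agent.Run7.h551.GP.Sharp

/-!
# Triple systems, four edges on seven vertices
-/

set_option autoImplicit false

universe u

namespace Pool.Agent.Run7.h551.GP

open Finset Pool.Agent.R181.Maj Pool.Agent.R181.LW

variable {A : Type u} {n : ℕ} {q : ℕ → A → A → A → A} {p : A → A → A → A}
  {X : Fin 3 → Type*} {f : ∀ k, A → X k} {φ : Fin 3 → Setoid A} {e d : Setoid A}

/-- The classes of `d` have at most three elements if no four edges have at most seven vertices. -/
theorem class_bound4 [Fintype A] [DecidableEq A] [∀ k, DecidableEq (X k)] (h : G n q p)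
    (hM : M3 q p f φ e d) (hsp : ∀ T : Finset A, #T = 4 → 7 < ∑ k, #(T.image (f k))) (a0 : A)
    (D : Finset A) (hD : ∀ b ∈ D, d a0 b) : #D ≤ 3 := by
  classical
  by_cases hone : ∀ b, d a0 b → φ 0 a0 b
  · have h1 : D ⊆ univ.filter fun b => e a0 b := by
      intro b hb
      obtain ⟨c, hc1, hc2⟩ := comp h hM (show (1 : Fin 3) ≠ 2 by decide) (hD b hb)
      have h2 := hone c (hM.le 1 _ _ hc1)
      have h3 : e a0 c := hM.meet 0 1 (by decide) _ _ h2 hc1
      have h4 : e c b := hM.meet 0 2 (by decide) _ _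
        ((φ 0).trans ((φ 0).symm h2) (hone b (hD b hb))) hc2
      exact mem_filter.2 ⟨mem_univ _, e.trans h3 h4⟩
    refine (card_le_card h1).trans ?_
    by_contra hcon
    obtain ⟨T, -, hTs, hT⟩ := growth (by norm_num : 2 ≤ 3) f a0 (univ.filter fun b => e a0 b)
      (fun y => by
        rw [mem_filter]
        constructor
        · intro hy
          exact hM.ind (fun z => Relation.EqvGen (Share f) a0 z) (fun k l hkl a b h1 h2 ha =>
            Relation.EqvGen.trans _ _ _ ha (Relation.EqvGen.rel _ _ ⟨k, l, hkl, h1, h2⟩)) a0 y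
            hy.2 (Relation.EqvGen.refl _)
        · intro hy
          exact ⟨mem_univ _, share_e hM hy⟩) 4 (by omega) (by omega)
    have h3 : 7 < spn f T := hsp T hTs
    omega
  · push Not at hone
    obtain ⟨a1, hd1, hn1⟩ := hone
    have h12 := two_rows h hM hd1 hn1 4 (by omega) hsp
    have hcard : 2 ≤ #(({a0, a1} : Finset A).image fun b => (Quotient.mk (φ 0) b)) := by
      rw [image_insert, image_singleton, card_pair]
      intro hq
      exact hn1 (Quotient.exact hq)
    have hr0 := rows_count h hM a0 {a0, a1} (by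
      intro b hb
      rcases mem_insert.1 hb with rfl | hb
      · exact d.refl _
      · rw [mem_singleton.1 hb]; exact hd1)
    have hr1 := rows_count h hM a1 {a0, a1} (by
      intro b hb
      rcases mem_insert.1 hb with rfl | hb
      · exact d.symm hd1
      · rw [mem_singleton.1 hb])
    omega

/-- The bound for three coordinates, from a bound for the classes of `d`. -/
theorem bound3_of [Fintype A] [∀ k, DecidableEq (X k)] (B : ℕ)
    (hB : ∀ (a0 : A) (D : Finset A), (∀ b ∈ D, ((Setoid.ker (f 0) ⊔ Setoid.ker (f 1)) ⊓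
      (Setoid.ker (f 1) ⊔ Setoid.ker (f 2)) ⊓ (Setoid.ker (f 0) ⊔ Setoid.ker (f 2))) a0 b) →
      #D ≤ B) :
    Fintype.card A ^ 2 ≤ B ^ 2 * ∏ k, #((univ : Finset A).image (f k)) := by
  classical
  rcases isEmpty_or_nonempty A with hA | hA
  · simp
  let ψ : Fin 3 → Setoid A := ![Setoid.ker (f 1) ⊔ Setoid.ker (f 2),
    Setoid.ker (f 0) ⊔ Setoid.ker (f 2), Setoid.ker (f 0) ⊔ Setoid.ker (f 1)]
  have hψ : ∀ i j, i ≠ j → Setoid.ker (f i) ≤ ψ j := by
    intro i j hij
    fin_cases i <;> fin_cases j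
    · exact absurd rfl hij
    · exact (le_sup_left : Setoid.ker (f 0) ≤ Setoid.ker (f 0) ⊔ Setoid.ker (f 2))
    · exact (le_sup_left : Setoid.ker (f 0) ≤ Setoid.ker (f 0) ⊔ Setoid.ker (f 1))
    · exact (le_sup_left : Setoid.ker (f 1) ≤ Setoid.ker (f 1) ⊔ Setoid.ker (f 2))
    · exact absurd rfl hij
    · exact (le_sup_right : Setoid.ker (f 1) ≤ Setoid.ker (f 0) ⊔ Setoid.ker (f 1))
    · exact (le_sup_right : Setoid.ker (f 2) ≤ Setoid.ker (f 1) ⊔ Setoid.ker (f 2))
    · exact (le_sup_right : Setoid.ker (f 2) ≤ Setoid.ker (f 0) ⊔ Setoid.ker (f 2))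
    · exact absurd rfl hij
  let Φ : A → ∀ k, Quotient (ψ k) := fun x k => Quotient.mk _ x
  have hΦ : ∀ x y k, Φ x k = Φ y k ↔ (ψ k) x y := fun x y k => Quotient.eq
  have h1 : #(univ : Finset A) ≤ B * #(univ.image Φ) := by
    refine card_le_mul_card_image_of_maps_to (f := Φ) (fun x hx => mem_image_of_mem _ hx) _ ?_
    intro b hb
    obtain ⟨x₀, -, rfl⟩ := mem_image.1 hb
    refine hB x₀ (univ.filter fun x => Φ x = Φ x₀) ?_
    intro y hy
    have hy' := (mem_filter.1 hy).2
    have g0 := (hΦ x₀ y 0).1 (congrFun hy'.symm 0)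
    have g1 := (hΦ x₀ y 1).1 (congrFun hy'.symm 1)
    have g2 := (hΦ x₀ y 2).1 (congrFun hy'.symm 2)
    exact ⟨⟨g2, g0⟩, g1⟩
  have hneA : (univ.image Φ).Nonempty := by
    obtain ⟨x⟩ := hA
    exact ⟨_, mem_image_of_mem Φ (mem_univ x)⟩
  have h2 := loomisWhitney 2 (fun k => Quotient (ψ k)) (univ.image Φ) hneA
  have h3 : ∀ i : Fin 3, #((univ.image Φ).image fun x => i.removeNth x) ≤
      #((univ : Finset A).image (f i)) := by
    intro i
    rw [image_image]
    refine card_image_le_of_factor (univ : Finset A) (f i) _ ?_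
    intro x _ y _ hxy
    funext k
    show Φ x (i.succAbove k) = Φ y (i.succAbove k)
    rw [hΦ]
    exact hψ i (i.succAbove k) (Fin.succAbove_ne i k).symm hxy
  rw [card_univ] at h1
  calc Fintype.card A ^ 2 ≤ (B * #(univ.image Φ)) ^ 2 := Nat.pow_le_pow_left h1 2
    _ = B ^ 2 * #(univ.image Φ) ^ 2 := by ring
    _ ≤ B ^ 2 * ∏ i : Fin 3, #((univ.image Φ).image fun x => i.removeNth x) :=
        Nat.mul_le_mul_left _ h2
    _ ≤ _ := Nat.mul_le_mul_left _ (prod_le_prod' fun i _ => h3 i)

theorem piece_bound4 {V : Type} [Fintype V] {H : Set (Finset V)} (hH : SpanMore H 4 7)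
    {F : Set (Finset V)} (hF : GummPiece 3 F) (hFH : F ⊆ H) :
    27 * F.ncard ^ 2 ≤ 9 * Fintype.card V ^ 3 := by
  classical
  obtain ⟨n, X, q, p, f, E, hG, hf, hEq, hEp, rfl⟩ := hF
  have hfi : ∀ i, Function.Injective fun a : X i => f ⟨i, a⟩ := fun i a b hab =>
    eq_of_heq (Sigma.mk.inj (hf hab)).2
  have : ∀ i, Finite (X i) := fun i => Finite.of_injective _ (hfi i)
  let _ : ∀ i, Fintype (X i) := fun i => Fintype.ofFinite (X i)
  let q' : ℕ → E → E → E → E := fun i x y z =>
    if h : i ≤ n then ⟨fun j => q j i (x.1 j) (y.1 j) (z.1 j), hEq i h _ x.2 _ y.2 _ z.2⟩ else x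
  let p' : E → E → E → E := fun x y z =>
    ⟨fun j => p j (x.1 j) (y.1 j) (z.1 j), hEp _ x.2 _ y.2 _ z.2⟩
  have hq' : ∀ i, i ≤ n → ∀ x y z j, (q' i x y z).1 j = q j i (x.1 j) (y.1 j) (z.1 j) := by
    intro i hi x y z j
    simp only [q', dif_pos hi]
  have hq'' : ∀ i, ¬ i ≤ n → ∀ x y z, q' i x y z = x := by
    intro i hi x y z
    simp only [q', dif_neg hi]
  have hG' : G n q' p' := by
    refine ⟨?_, ?_, ?_, ?_, ?_⟩
    · intro x y z
      refine Subtype.ext (funext fun j => ?_)
      rw [hq' 0 (Nat.zero_le _)]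
      exact (hG j).1 _ _ _
    · intro i x y
      by_cases hi : i ≤ n
      · refine Subtype.ext (funext fun j => ?_)
        rw [hq' i hi]
        exact (hG j).2.1 i hi _ _
      · exact hq'' i hi _ _ _
    · intro i hi
      rcases Nat.even_or_odd i with h | h
      · left
        intro x z
        refine Subtype.ext (funext fun j => ?_)
        rw [hq' i (by omega), hq' (i + 1) (by omega)]
        exact ((hG j).2.2.1 i hi).1 h _ _
      · right
        intro x z
        refine Subtype.ext (funext fun j => ?_)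
        rw [hq' i (by omega), hq' (i + 1) (by omega)]
        exact ((hG j).2.2.1 i hi).2 h _ _
    · intro x z
      refine Subtype.ext (funext fun j => ?_)
      rw [hq' n le_rfl]
      exact (hG j).2.2.2.1 _ _
    · intro x z
      exact Subtype.ext (funext fun j => (hG j).2.2.2.2 _ _)
  let g : ∀ i : Fin 3, E → X i := fun i a => a.1 i
  have hker : ∀ i, Cp q' p' (Setoid.ker (g i)) := by
    intro i
    constructor
    · intro l a a' b b' d d' h1 h2 h3
      have e1 : a.1 i = a'.1 i := h1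
      have e2 : b.1 i = b'.1 i := h2
      have e3 : d.1 i = d'.1 i := h3
      rw [Setoid.ker_def]
      show (q' l a b d).1 i = (q' l a' b' d').1 i
      by_cases hl : l ≤ n
      · rw [hq' l hl, hq' l hl, e1, e2, e3]
      · rw [hq'' l hl, hq'' l hl]
        exact e1
    · intro a a' b b' d d' h1 h2 h3
      have e1 : a.1 i = a'.1 i := h1
      have e2 : b.1 i = b'.1 i := h2
      have e3 : d.1 i = d'.1 i := h3
      rw [Setoid.ker_def]
      show p i (a.1 i) (b.1 i) (d.1 i) = p i (a'.1 i) (b'.1 i) (d'.1 i)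
      rw [e1, e2, e3]
  have hsp : ∀ T : Finset E, #T = 4 → 7 < ∑ i, #(T.image (g i)) := by
    intro T hTs
    have h1 := hH ((T.map (Function.Embedding.subtype _)).image (edge f)) (by
      rw [coe_image]
      intro a ha
      obtain ⟨x, hx, rfl⟩ := ha
      obtain ⟨y, -, rfl⟩ := mem_map.1 (mem_coe.1 hx)
      exact hFH ⟨y.1, y.2, rfl⟩)
      (by rw [card_image_of_injective _ (edge_injective hf), card_map, hTs])
    rw [union_eq hf] at h1
    have h3 : ∀ i, (T.map (Function.Embedding.subtype _)).image (fun x : ∀ j, X j => x i) =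
        T.image (g i) := by
      intro i
      rw [map_eq_image, image_image]
      rfl
    simp only [h3] at h1
    exact h1
  let _ : Fintype E := Fintype.ofFinite E
  obtain ⟨φ, e, hM⟩ := m3 hG' hker
  have h := bound3_of (f := g) 3 fun a0 D hD => class_bound4 hG' hM hsp a0 D hD
  have h1 : (edge f '' E).ncard = Fintype.card E := by
    rw [Set.ncard_image_of_injective _ (edge_injective hf), ← Nat.card_coe_set_eq,
      Nat.card_eq_fintype_card]
  rw [h1]
  have h3 : ∏ i, #((univ : Finset E).image (g i)) ≤ ∏ i, Fintype.card (X i) :=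
    prod_le_prod' fun i _ => card_le_univ _
  have h4 := amgm (univ : Finset (Fin 3)) univ_nonempty fun i => Fintype.card (X i)
  rw [card_univ, Fintype.card_fin] at h4
  have h5 : ∑ i, Fintype.card (X i) ≤ Fintype.card V := by
    rw [← Fintype.card_sigma]
    exact Fintype.card_le_of_injective f hf
  calc 27 * Fintype.card E ^ 2 ≤ 27 * (3 ^ 2 * ∏ i, Fintype.card (X i)) :=
        Nat.mul_le_mul_left _ (h.trans (Nat.mul_le_mul_left _ h3))
    _ = 9 * (3 ^ 3 * ∏ i, Fintype.card (X i)) := by ring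
    _ ≤ 9 * (∑ i, Fintype.card (X i)) ^ 3 := Nat.mul_le_mul_left _ h4
    _ ≤ _ := Nat.mul_le_mul_left _ (Nat.pow_le_pow_left h5 _)

end Pool.Agent.Run7.h551.GP
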