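import Pool.Agent.Run7.h551.GP.Rows

/-!
# The bound for three coordinates
-/

set_option autoImplicit false

universe u

namespace Pool.Agent.Run7.h551.GP

open Finset Pool.Agent.R181.Maj Pool.Agent.R181.LW

section Lat

variable {L : Type*} [Lattice L]

/-- lower element -/
def E3 (a b c : L) : L := (a ⊓ b) ⊔ (b ⊓ c) ⊔ (a ⊓ c)

/-- upper element -/
def D3 (a b c : L) : L := (a ⊔ b) ⊓ (b ⊔ c) ⊓ (a ⊔ c)

/-- middle element -/
def F3 (a b c : L) : L := (a ⊓ (b ⊔ c)) ⊔ (b ⊓ c)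

theorem E3_swap (a b c : L) : E3 b a c = E3 a b c := by
  unfold E3
  rw [inf_comm b a, sup_assoc, sup_assoc, sup_comm (a ⊓ c)]

theorem E3_rot (a b c : L) : E3 b c a = E3 a b c := by
  unfold E3
  rw [inf_comm c a, inf_comm b a, sup_comm, sup_assoc]

theorem D3_swap (a b c : L) : D3 b a c = D3 a b c := by
  unfold D3
  rw [sup_comm b a, inf_assoc, inf_assoc, inf_comm (a ⊔ c)]

theorem D3_rot (a b c : L) : D3 b c a = D3 a b c := by
  unfold D3
  rw [sup_comm c a, sup_comm b a, inf_comm, inf_assoc]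

theorem F3_swap (a b c : L) : F3 a c b = F3 a b c := by
  unfold F3
  rw [sup_comm c b, inf_comm c b]

theorem E3_le (a b c : L) : E3 a b c ≤ F3 a b c := by
  unfold E3 F3
  refine sup_le (sup_le ?_ le_sup_right) ?_
  · exact (inf_le_inf_left a le_sup_left).trans le_sup_left
  · exact (inf_le_inf_left a le_sup_right).trans le_sup_left

theorem F3_le (a b c : L) : F3 a b c ≤ D3 a b c := by
  unfold F3 D3
  refine sup_le (le_inf (le_inf ?_ ?_) ?_) (le_inf (le_inf ?_ ?_) ?_)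
  · exact inf_le_left.trans le_sup_left
  · exact inf_le_right
  · exact inf_le_left.trans le_sup_left
  · exact inf_le_left.trans le_sup_right
  · exact inf_le_left.trans le_sup_left
  · exact inf_le_right.trans le_sup_right

theorem F3_al (a b c : L) : F3 a b c ≤ (a ⊓ D3 a b c) ⊔ E3 a b c := by
  have h1 : a ⊓ (b ⊔ c) ≤ a ⊓ D3 a b c :=
    le_inf inf_le_left ((le_sup_left : _ ≤ F3 a b c).trans (F3_le a b c))
  have h2 : b ⊓ c ≤ E3 a b c := (le_sup_right : b ⊓ c ≤ (a ⊓ b) ⊔ (b ⊓ c)).trans le_sup_left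
  exact sup_le (h1.trans le_sup_left) (h2.trans le_sup_right)

theorem kd (a b c : L) : a ⊓ D3 a b c ≤ F3 a b c := by
  unfold F3 D3
  exact (inf_le_inf_left a (inf_le_left.trans inf_le_right)).trans le_sup_left

variable [IsModularLattice L]

theorem meet_eq (a b c : L) :
    (a ⊔ (b ⊓ c)) ⊓ (b ⊔ (a ⊓ c)) = (a ⊓ b) ⊔ (b ⊓ c) ⊔ (a ⊓ c) :=
  congrArg OrderDual.ofDual
    (join_eq (L := Lᵒᵈ) (OrderDual.toDual a) (OrderDual.toDual b) (OrderDual.toDual c))

theorem F3_meet (a b c : L) : F3 a b c ⊓ F3 b a c ≤ E3 a b c := by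
  unfold E3 F3
  rw [← meet_eq]
  exact inf_le_inf (sup_le_sup_right inf_le_left _) (sup_le_sup_right inf_le_left _)

theorem F3_join (a b c : L) : D3 a b c ≤ F3 a b c ⊔ F3 b a c := by
  unfold D3 F3
  rw [← join_eq]
  exact sup_le_sup le_sup_left le_sup_left

end Lat

variable {A : Type u} {n : ℕ} {q : ℕ → A → A → A → A} {p : A → A → A → A}
  {X : Fin 3 → Type*} {f : ∀ k, A → X k}

theorem m3 (hG : G n q p) (hf : ∀ k, Cp q p (Setoid.ker (f k))) :
    ∃ (φ : Fin 3 → Setoid A) (e : Setoid A), M3 q p f φ e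
      ((Setoid.ker (f 0) ⊔ Setoid.ker (f 1)) ⊓ (Setoid.ker (f 1) ⊔ Setoid.ker (f 2)) ⊓
        (Setoid.ker (f 0) ⊔ Setoid.ker (f 2))) := by
  let a : Cg hG := ⟨_, hf 0⟩
  let b : Cg hG := ⟨_, hf 1⟩
  let c : Cg hG := ⟨_, hf 2⟩
  have hab : F3 a b c ⊓ F3 b a c ≤ E3 a b c := F3_meet a b c
  have hac : F3 a b c ⊓ F3 c a b ≤ E3 a b c := by
    have := F3_meet a c b
    rwa [F3_swap, ← E3_rot, E3_swap, E3_rot] at this
  have hbc : F3 b a c ⊓ F3 c a b ≤ E3 a b c := by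
    have := F3_meet b c a
    rwa [F3_swap b a c, F3_swap c a b, E3_rot] at this
  have jab : D3 a b c ≤ F3 a b c ⊔ F3 b a c := F3_join a b c
  have jac : D3 a b c ≤ F3 a b c ⊔ F3 c a b := by
    have := F3_join a c b
    rwa [F3_swap, ← D3_rot, D3_swap, D3_rot] at this
  have jbc : D3 a b c ≤ F3 b a c ⊔ F3 c a b := by
    have := F3_join b c a
    rwa [F3_swap b a c, F3_swap c a b, D3_rot] at this
  have lb : E3 a b c ≤ F3 b a c := by rw [← E3_swap]; exact E3_le b a c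
  have lc : E3 a b c ≤ F3 c a b := by rw [← E3_rot, ← E3_rot]; exact E3_le c a b
  have ub : F3 b a c ≤ D3 a b c := by rw [← D3_swap]; exact F3_le b a c
  have uc : F3 c a b ≤ D3 a b c := by rw [← D3_rot, ← D3_rot]; exact F3_le c a b
  have ab : F3 b a c ≤ (b ⊓ D3 a b c) ⊔ E3 a b c := by
    rw [← E3_swap, ← D3_swap]; exact F3_al b a c
  have ac : F3 c a b ≤ (c ⊓ D3 a b c) ⊔ E3 a b c := by
    rw [← E3_rot, ← E3_rot, ← D3_rot, ← D3_rot]; exact F3_al c a b
  have kb : b ⊓ D3 a b c ≤ F3 b a c := by rw [← D3_swap]; exact kd b a c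
  have kc : c ⊓ D3 a b c ≤ F3 c a b := by rw [← D3_rot, ← D3_rot]; exact kd c a b
  have p1 : a ⊓ b ≤ E3 a b c := (le_sup_left : a ⊓ b ≤ (a ⊓ b) ⊔ (b ⊓ c)).trans le_sup_left
  have p2 : b ⊓ c ≤ E3 a b c := (le_sup_right : b ⊓ c ≤ (a ⊓ b) ⊔ (b ⊓ c)).trans le_sup_left
  have p3 : a ⊓ c ≤ E3 a b c := le_sup_right
  refine ⟨![(F3 a b c).1, (F3 b a c).1, (F3 c a b).1], (E3 a b c).1, ?_⟩
  have hd : ((Setoid.ker (f 0) ⊔ Setoid.ker (f 1)) ⊓ (Setoid.ker (f 1) ⊔ Setoid.ker (f 2)) ⊓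
        (Setoid.ker (f 0) ⊔ Setoid.ker (f 2))) = (D3 a b c).1 := rfl
  rw [hd]
  constructor
  · intro k
    fin_cases k
    · exact (F3 a b c).2
    · exact (F3 b a c).2
    · exact (F3 c a b).2
  · intro k
    fin_cases k
    · exact (a ⊓ D3 a b c).2
    · exact (b ⊓ D3 a b c).2
    · exact (c ⊓ D3 a b c).2
  · exact (E3 a b c).2
  · intro k x y hxy
    fin_cases k
    · exact (E3_le a b c) hxy
    · exact lb hxy
    · exact lc hxy
  · intro k l hkl x y h1 h2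
    fin_cases k <;> fin_cases l
    · exact absurd rfl hkl
    · exact hab ⟨h1, h2⟩
    · exact hac ⟨h1, h2⟩
    · exact hab ⟨h2, h1⟩
    · exact absurd rfl hkl
    · exact hbc ⟨h1, h2⟩
    · exact hac ⟨h2, h1⟩
    · exact hbc ⟨h2, h1⟩
    · exact absurd rfl hkl
  · intro k l hkl
    fin_cases k <;> fin_cases l
    · exact absurd rfl hkl
    · exact jab
    · exact jac
    · exact jab.trans (le_of_eq (sup_comm _ _))
    · exact absurd rfl hkl
    · exact jbc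
    · exact jac.trans (le_of_eq (sup_comm _ _))
    · exact jbc.trans (le_of_eq (sup_comm _ _))
    · exact absurd rfl hkl
  · intro k x y hxy
    fin_cases k
    · exact (F3_le a b c) hxy
    · exact ub hxy
    · exact uc hxy
  · intro k
    fin_cases k
    · exact F3_al a b c
    · exact ab
    · exact ac
  · intro k x y h1 h2
    fin_cases k
    · exact (kd a b c) ⟨h1, h2⟩
    · exact kb ⟨h1, h2⟩
    · exact kc ⟨h1, h2⟩
  · intro k l hkl x y h1 h2
    fin_cases k <;> fin_cases l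
    · exact absurd rfl hkl
    · exact p1 ⟨h1, h2⟩
    · exact p3 ⟨h1, h2⟩
    · exact p1 ⟨h2, h1⟩
    · exact absurd rfl hkl
    · exact p2 ⟨h1, h2⟩
    · exact p3 ⟨h2, h1⟩
    · exact p2 ⟨h2, h1⟩
    · exact absurd rfl hkl
  · intro P hP x y hxy hx
    have hxy' : ((a ⊓ b).1 ⊔ (b ⊓ c).1 ⊔ (a ⊓ c).1) x y := hxy
    have g1 : ∀ x y, (a ⊓ b).1 x y → P x → P y := fun x y h => hP 0 1 (by decide) x y h.1 h.2
    have g2 : ∀ x y, (b ⊓ c).1 x y → P x → P y := fun x y h => hP 1 2 (by decide) x y h.1 h.2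
    have g3 : ∀ x y, (a ⊓ c).1 x y → P x → P y := fun x y h => hP 0 2 (by decide) x y h.1 h.2
    have g12 : ∀ x y, ((a ⊓ b).1 ⊔ (b ⊓ c).1) x y → P x → P y := fun x y h =>
      (sup_ind P g1 g2 h).1
    exact (sup_ind P g12 g3 hxy').1 hx

/-- **The bound for three coordinates.** -/
theorem bound3 [Fintype A] [∀ k, DecidableEq (X k)] (hG : G n q p)
    (hf : ∀ k, Cp q p (Setoid.ker (f k))) (s : ℕ) (hs : 3 ≤ s)
    (hsp : ∀ T : Finset A, #T = s → s + 3 < ∑ k, #(T.image (f k))) :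
    4 * Fintype.card A ^ 2 ≤ (s - 1) ^ 4 * ∏ k, #((univ : Finset A).image (f k)) := by
  classical
  obtain ⟨φ, e, hM⟩ := m3 hG hf
  rcases isEmpty_or_nonempty A with hA | hA
  · simp
  let ψ : Fin 3 → Setoid A := ![Setoid.ker (f 1) ⊔ Setoid.ker (f 2),
    Setoid.ker (f 0) ⊔ Setoid.ker (f 2), Setoid.ker (f 0) ⊔ Setoid.ker (f 1)]
  have hψ : ∀ i j, i ≠ j → Setoid.ker (f i) ≤ ψ j := by
    intro i j hij
    fin_cases i <;> fin_cases j
    · exact absurd rfl hij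
    · exact (le_sup_left : Setoid.ker (f 0) ≤ Setoid.ker (f 0) ⊔ Setoid.ker (f 2))
    · exact (le_sup_left : Setoid.ker (f 0) ≤ Setoid.ker (f 0) ⊔ Setoid.ker (f 1))
    · exact (le_sup_left : Setoid.ker (f 1) ≤ Setoid.ker (f 1) ⊔ Setoid.ker (f 2))
    · exact absurd rfl hij
    · exact (le_sup_right : Setoid.ker (f 1) ≤ Setoid.ker (f 0) ⊔ Setoid.ker (f 1))
    · exact (le_sup_right : Setoid.ker (f 2) ≤ Setoid.ker (f 1) ⊔ Setoid.ker (f 2))
    · exact (le_sup_right : Setoid.ker (f 2) ≤ Setoid.ker (f 0) ⊔ Setoid.ker (f 2))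
    · exact absurd rfl hij
  let Φ : A → ∀ k, Quotient (ψ k) := fun x k => Quotient.mk _ x
  have hΦ : ∀ x y k, Φ x k = Φ y k ↔ (ψ k) x y := fun x y k => Quotient.eq
  have h1 : #(univ : Finset A) ≤ (s - 1) ^ 2 / 2 * #(univ.image Φ) := by
    refine card_le_mul_card_image_of_maps_to (f := Φ) (fun x hx => mem_image_of_mem _ hx) _ ?_
    intro b hb
    obtain ⟨x₀, -, rfl⟩ := mem_image.1 hb
    have h2 := class_bound hG hM s hs hsp x₀ (univ.filter fun x => Φ x = Φ x₀) (by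
      intro y hy
      have hy' := (mem_filter.1 hy).2
      have g0 := (hΦ x₀ y 0).1 (congrFun hy'.symm 0)
      have g1 := (hΦ x₀ y 1).1 (congrFun hy'.symm 1)
      have g2 := (hΦ x₀ y 2).1 (congrFun hy'.symm 2)
      exact ⟨⟨g2, g0⟩, g1⟩)
    omega
  have hneA : (univ.image Φ).Nonempty := by
    obtain ⟨x⟩ := hA
    exact ⟨_, mem_image_of_mem Φ (mem_univ x)⟩
  have h2 := loomisWhitney 2 (fun k => Quotient (ψ k)) (univ.image Φ) hneA
  have h3 : ∀ i : Fin 3, #((univ.image Φ).image fun x => i.removeNth x) ≤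
      #((univ : Finset A).image (f i)) := by
    intro i
    rw [image_image]
    refine card_image_le_of_factor (univ : Finset A) (f i) _ ?_
    intro x _ y _ hxy
    funext k
    show Φ x (i.succAbove k) = Φ y (i.succAbove k)
    rw [hΦ]
    exact hψ i (i.succAbove k) (Fin.succAbove_ne i k).symm hxy
  have h4 : 2 * Fintype.card A ≤ (s - 1) ^ 2 * #(univ.image Φ) := by
    rw [card_univ] at h1
    calc 2 * Fintype.card A ≤ 2 * ((s - 1) ^ 2 / 2 * #(univ.image Φ)) := Nat.mul_le_mul_left _ h1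
      _ = (2 * ((s - 1) ^ 2 / 2)) * #(univ.image Φ) := by ring
      _ ≤ _ := Nat.mul_le_mul_right _ (Nat.mul_div_le _ _)
  calc 4 * Fintype.card A ^ 2 = (2 * Fintype.card A) ^ 2 := by ring
    _ ≤ ((s - 1) ^ 2 * #(univ.image Φ)) ^ 2 := Nat.pow_le_pow_left h4 2
    _ = (s - 1) ^ 4 * #(univ.image Φ) ^ 2 := by ring
    _ ≤ (s - 1) ^ 4 * ∏ i : Fin 3, #((univ.image Φ).image fun x => i.removeNth x) :=
        Nat.mul_le_mul_left _ h2
    _ ≤ _ := Nat.mul_le_mul_left _ (prod_le_prod' fun i _ => h3 i)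

end Pool.Agent.Run7.h551.GP
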